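import Pool.Agent.W658.KE.Stm
import Pool.Agent.H160R2.ML.T_FIN

/-!
# Crossing clusters of annuli under the product measure (any inner radius)
-/

set_option autoImplicit false

namespace Pool.Agent.W658.KE
open H974 H906.Cyl
open MeasureTheory
open Pool.Agent.H160R2 Pool.Agent.H160R2.ML
open Pool.Agent.H160R2.ML.TFIN (Z2 crit annGraph annGraph_reach annE_sub)

namespace Law

/-- `k` different open clusters of the annulus `d ≤ max (|x|, |y|) ≤ n` join its two boundaries. -/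
def Clusters (k d n : ℕ) (ω : Z2.edgeSet → Bool) : Prop :=
  ∃ x : Fin k → ℤ × ℤ, (∀ i, max |(x i).1| |(x i).2| = d ∧ ∃ y : ℤ × ℤ, max |y.1| |y.2| = n ∧
    (annGraph d n ω).Reachable (x i) y) ∧ ∀ i j, i ≠ j → ¬ (annGraph d n ω).Reachable (x i) (x j)

theorem clusters_iff (k d n : ℕ) (ω : Z2.edgeSet → Bool) :
    Clusters k d n ω ↔ KArm k d n (↑(FF (boxE n) ω) : Set Edg) := by
  have h1 : (↑(FF (boxE n) ω) : Set Edg) = opn ω ∩ ↑(boxE n) := FF_coe (boxE n) ω
  have h2 : (opn ω ∩ ↑(boxE n)) ∩ ML.annE d n = opn ω ∩ ML.annE d n := by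
    rw [Set.inter_assoc, Set.inter_eq_self_of_subset_right (annE_sub d n)]
  have hG : ((↑(FF (boxE n) ω) : Set Edg)) ∩ ML.annE d n = opn ω ∩ ML.annE d n :=
    (congrArg (fun G : Set Edg => G ∩ ML.annE d n) h1).trans h2
  have key : ∀ G : Set Edg, G ∩ ML.annE d n = opn ω ∩ ML.annE d n → (Clusters k d n ω ↔ KArm k d n G) := by
    intro G hG
    unfold Clusters KArm
    rw [hG]
    simp only [annGraph_reach]
    rfl
  exact key _ hG

theorem clusters_law (k d n : ℕ) : crit.real {ω | Clusters k d n ω} =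
    Pr (fun _ => (1 / 2 : ℝ)) (boxE n) (fun F => KArm k d n (↑F : Set Edg)) := by
  have h : {ω : Z2.edgeSet → Bool | Clusters k d n ω} =
      {ω : sqLattice.edgeSet → Bool | (fun F : Finset Edg => KArm k d n (↑F : Set Edg))
        (FF (boxE n) ω)} := by
    ext ω
    exact clusters_iff k d n ω
  rw [h]
  exact law_event hlf (boxE n) (fun F => KArm k d n (↑F : Set Edg))

end Law

open Law in
/-- **even arm exponents in annuli** -/
theorem t_LAW : S_ANE → S_LOE → ∀ k d : ℕ, 2 ≤ k → k ≤ d → ∃ c C : ℝ, 0 < c ∧ 0 < C ∧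
    ∀ n : ℕ, d ≤ n →
    c * (n : ℝ) ^ (-((4 * (k : ℝ) ^ 2 - 1) / 12)) ≤ crit.real {ω | Clusters k d n ω} ∧
    crit.real {ω | Clusters k d n ω} ≤ C * (n : ℝ) ^ (-((4 * (k : ℝ) ^ 2 - 1) / 12)) := by
  intro hU hL k d hk hd
  obtain ⟨C, hC, h1⟩ := hU k d hk (by omega)
  obtain ⟨c, hc, h2⟩ := hL k d (by omega) hd
  refine ⟨c, C, hc, hC, fun n hn => ?_⟩
  rw [clusters_law]
  exact ⟨h2 n hn, h1 n (by omega)⟩

end Pool.Agent.W658.KE
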