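import Pool.Agent.W658.KE.Stm
import Pool.Agent.W658.KT.T_ANN

/-!
# Even numbers of arms: probability estimates
-/

set_option autoImplicit false

namespace Pool.Agent.W658.KE
open H974 H906.Cyl
open Pool.Agent.H160R2.ML (nm KArm)
open Pool.Agent.H160R2.MU (SE sP sv)
open Pool.Agent.W801.OU (bxz)
open Pool.Agent.W658.KT (nd Dd An Rn rotV rk Nrm S_OUT S_ORD)
open Pool.Agent.W658.KT.TANN (bxz_iff nm_le_nd count_le okh)

/-- one family of tokens -/
theorem t_MOE : S_PTE → S_FIE → S_MOE := by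
  classical
  intro hP hF k n hk
  refine ⟨2 ^ (boxE n).card, by positivity, ?_⟩
  intro R X a hnR hN
  obtain ⟨P, hPP⟩ := hP k n X a hk hN
  obtain ⟨Q, hQ⟩ : ∃ Q : Set Edg, Q = {e | ∃ i < k, (src e, sd e) ∈ P i ∧ (tgt e, sd e) ∈ P i} := ⟨_, rfl⟩
  have hnR' : (n : ℤ) < R := by exact_mod_cast hnR
  have hQD : Q ⊆ Dd n := by
    intro e he
    rw [hQ] at he
    obtain ⟨i, hi, h1, h2⟩ := he
    exact ⟨(hPP.bd i hi _ h1).1, (hPP.bd i hi _ h2).1⟩
  have hDb : ∀ e ∈ Dd (n : ℤ), e ∈ boxE n := by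
    intro e he
    rw [← bxz_iff]
    exact ⟨(nm_le_nd _).trans he.1, (nm_le_nd _).trans he.2⟩
  have hDR : ∀ e ∈ Dd (n : ℤ), e ∈ boxE R := fun e he => boxE_mono hnR.le (hDb e he)
  obtain ⟨g, hg⟩ : ∃ g : Finset Edg → Finset Edg, ∀ F e, e ∈ g F ↔
      e ∈ boxE R ∧ e ∈ Q ∪ ((↑F : Set Edg) \ Dd n) :=
    ⟨fun F => (boxE R).filter (fun e => e ∈ Q ∪ ((↑F : Set Edg) \ Dd n)), fun F e => by
      rw [Finset.mem_filter]⟩
  obtain ⟨g', hg'⟩ : ∃ g' : Finset Edg → Finset Edg, ∀ F e, e ∈ g' F ↔ e ∈ F ∧ e ∈ Dd (n : ℤ) :=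
    ⟨fun F => F.filter (fun e => e ∈ Dd (n : ℤ)), fun F e => by rw [Finset.mem_filter]⟩
  have hco : ∀ F, F ⊆ boxE R → (↑(g F) : Set Edg) = Q ∪ ((↑F : Set Edg) \ Dd n) := by
    intro F hFR
    ext e
    rw [Finset.mem_coe, hg]
    refine ⟨fun h => h.2, fun h => ⟨?_, h⟩⟩
    rcases h with h | h
    · exact hDR e (hQD h)
    · exact hFR (Finset.mem_coe.1 h.1)
  show _ ≤ 2 ^ (boxE n).card * sP k R
  unfold sP
  refine count_le (boxE R) (boxE n) _ _ (fun F => (g F, g' F)) ?_ ?_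
  · intro F hFR hT
    refine ⟨fun e he => ((hg F e).1 he).1, ?_, fun e he => hDb e ((hg' F e).1 he).2⟩
    show SE k R (↑(g F) : Set Edg)
    rw [hco F hFR, hQ]
    exact hF k n R a P (↑F : Set Edg) hk hnR hPP hT
  · intro F F' hFR hFR' _ _ he
    have e1 : g F = g F' := congrArg Prod.fst he
    have e2 : g' F = g' F' := congrArg Prod.snd he
    have key : ∀ F₁ F₂ : Finset Edg, F₁ ⊆ boxE R → g F₁ = g F₂ → g' F₁ = g' F₂ → F₁ ⊆ F₂ := by
      intro F₁ F₂ hF₁ e1 e2 e he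
      by_cases hD : e ∈ Dd (n : ℤ)
      · have : e ∈ g' F₁ := (hg' F₁ e).2 ⟨he, hD⟩
        rw [e2] at this
        exact ((hg' F₂ e).1 this).1
      · have : e ∈ g F₁ := (hg F₁ e).2 ⟨hF₁ he, Or.inr ⟨Finset.mem_coe.2 he, hD⟩⟩
        rw [e1] at this
        rcases ((hg F₂ e).1 this).2 with h | h
        · exact absurd (hQD h) hD
        · exact Finset.mem_coe.1 h.1
    exact Finset.Subset.antisymm (key F F' hFR e1 e2) (key F' F hFR' e1.symm e2.symm)


namespace ANEs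

/-- the token event only depends on the tokens `0, ..., k - 1` -/
theorem tok_congr {k n R : ℕ} {a a' : ℕ → Vtx} {F : Set Edg} (h : ∀ i < k, a i = a' i)
    (hT : Te k n R a F) : Te k n R a' F := by
  obtain ⟨h1, h2, h3⟩ := hT
  refine ⟨fun i hi => by rw [← h i hi]; exact h1 i hi,
    fun i hi => by rw [← h i hi]; exact h2 i hi,
    fun i j hi hj hij => by rw [← h i hi, ← h j hj]; exact h3 i j hi hj hij⟩

/-- permutation of the clusters -/
theorem tok_perm {k n R : ℕ} {a : ℕ → Vtx} {F : Set Edg} {b : ℕ → ℕ} (hb : ∀ i < k, b i < k)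
    (hi : ∀ i j, i < k → j < k → b i = b j → i = j)
    (hT : Te k n R a F) : Te k n R (fun i => a (b i)) F := by
  obtain ⟨h1, h2, h3⟩ := hT
  exact ⟨fun i hi => h1 _ (hb i hi), fun i hi => h2 _ (hb i hi),
    fun i j h h' hij => h3 _ _ (hb i h) (hb j h') (fun he => hij (hi i j h h' he))⟩

/-- the tokens are different -/
theorem tok_inj {k n R : ℕ} {a : ℕ → Vtx} {F : Set Edg} (hT : Te k n R a F) :
    ∀ i j, i < k → j < k → a i = a j → i = j := by
  obtain ⟨h1, h2, h3⟩ := hT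
  intro i j hi hj he
  by_contra hij
  refine h3 i j hi hj hij ?_
  rw [he]
  exact Reach.refl _ _

theorem rot_iter (hR : S_ROE) (k n R : ℕ) (q : ℕ) : ∀ a : ℕ → Vtx,
    Pr (fun _ => (1 / 2 : ℝ)) (boxE R) (fun F => Te k n R a (↑F : Set Edg)) ≤
    Pr (fun _ => (1 / 2 : ℝ)) (boxE R)
      (fun F => Te k n R (fun i => rotV^[q] (a i)) (↑F : Set Edg)) := by
  induction q with
  | zero => intro a; exact le_rfl
  | succ q ih =>
    intro a
    refine le_trans (ih a) ?_
    have := hR k n R (fun i => rotV^[q] (a i))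
    simp only [Function.iterate_succ_apply']
    exact this

/-- the tokens as functions on `Fin k` -/
def ext (k : ℕ) (f : Fin k → Vtx) (i : ℕ) : Vtx := if h : i < k then f ⟨i, h⟩ else (0, 0)

theorem ext_eq (k : ℕ) (a : ℕ → Vtx) : ∀ i < k, a i = ext k (fun j => a j) i := by
  intro i hi
  unfold ext
  rw [dif_pos hi]

end ANEs

open ANEs in
/-- **all the tokens** -/
theorem t_ALE : S_MOE → S_ORD → S_ROE → S_TOE → S_ALE := by
  classical
  intro hM hO hR hT k d hk hd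
  set n : ℕ := max (2 * d) (100 * (k - 1 + 2) ^ 2) with hn
  obtain ⟨C, hC, hC'⟩ := hM k n hk
  -- one family
  have key : ∀ (R : ℕ) (a : ℕ → Vtx), n < R →
      Pr (fun _ => (1 / 2 : ℝ)) (boxE R) (fun F => Te k n R a (↑F : Set Edg)) ≤ C * sP k R := by
    intro R a hnR
    have hpos : 0 ≤ C * sP k R := mul_nonneg hC.le (Pr_nonneg okh _ _)
    by_cases hg : (∀ i < k, nd (a i) = n) ∧ (∀ i j, i < k → j < k → a i = a j → i = j)
    · obtain ⟨b, q, X, hb1, hb2, hb3, hN⟩ := hO (k - 1) n a (by omega) (le_max_right _ _)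
        (fun i hi => hg.1 i (by omega)) (fun i j hi hj => hg.2 i j (by omega) (by omega))
      refine le_trans ?_ (hC' R X _ hnR hN)
      refine le_trans ?_ (rot_iter hR k n R q (fun i => a (b i)))
      have hb4 : ∀ i < k, b i < k := by
        intro i hi
        rcases Nat.lt_or_ge i (k - 1) with h | h
        · have := hb2 i h
          omega
        · rw [show i = k - 1 by omega, hb1]
          omega
      have hb5 : ∀ i j, i < k → j < k → b i = b j → i = j := by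
        intro i j hi hj he
        rcases Nat.lt_or_ge i (k - 1) with h | h
        · rcases Nat.lt_or_ge j (k - 1) with h' | h'
          · exact hb3 i j h h' he
          · have e1 : j = k - 1 := by omega
            rw [e1, hb1] at he
            have := hb2 i h
            omega
        · have e1 : i = k - 1 := by omega
          rcases Nat.lt_or_ge j (k - 1) with h' | h'
          · rw [e1, hb1] at he
            have := hb2 j h'
            omega
          · omega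
      exact Pr_mono okh (fun F _ h => tok_perm hb4 hb5 h)
    · refine le_trans (le_of_eq ?_) hpos
      have : Pr (fun _ => (1 / 2 : ℝ)) (boxE R) (fun F => Te k n R a (↑F : Set Edg)) ≤
          Pr (fun _ => (1 / 2 : ℝ)) (boxE R) (fun _ => False) := by
        refine Pr_mono okh (fun F _ h => hg ⟨h.1, tok_inj h⟩)
      refine le_antisymm (le_trans this (le_of_eq ?_)) (Pr_nonneg okh _ _)
      unfold Pr
      rw [Ex_congr (g := fun _ => 0) (fun F _ => ind_not_of (by simp)), Ex_const]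
  -- the finite set of tokens
  set J : Finset (Fin k → Vtx) := Fintype.piFinset
    (fun _ => (Finset.Icc (-(n : ℤ)) n) ×ˢ (Finset.Icc (-(n : ℤ)) n)) with hJ
  refine ⟨(J.card + 1) * C, by positivity, n + 1, fun R hnR => ?_⟩
  have hst : Pr (fun _ => (1 / 2 : ℝ)) (boxE R) (fun F => KArm k d R (↑F : Set Edg)) ≤
      Pr (fun _ => (1 / 2 : ℝ)) (boxE R) (fun F => ∃ f ∈ J, Te k n R (ext k f) (↑F : Set Edg)) := by
    refine Pr_mono okh (fun F _ h => ?_)
    obtain ⟨a, ha⟩ := hT k d n R (↑F : Set Edg) (le_max_left _ _) (by omega) h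
    refine ⟨fun j => a j, ?_, tok_congr (ext_eq k a) ha⟩
    rw [hJ, Fintype.mem_piFinset]
    intro j
    have h1 := ha.1 j j.2
    unfold nd at h1
    rw [Finset.mem_product, Finset.mem_Icc, Finset.mem_Icc]
    have e1 := abs_le.mp (show |(a j).1| ≤ (n : ℤ) by have := abs_nonneg (a j).2; omega)
    have e2 := abs_le.mp (show |(a j).2| ≤ (n : ℤ) by have := abs_nonneg (a j).1; omega)
    exact ⟨e1, e2⟩
  refine le_trans hst (le_trans (Pr_exists_le okh _ J (fun f F => Te k n R (ext k f) (↑F : Set Edg))) ?_)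
  refine le_trans (Finset.sum_le_card_nsmul J _ _ (fun f _ => key R (ext k f) (by omega))) ?_
  rw [nsmul_eq_mul]
  have hP : 0 ≤ sP k R := Pr_nonneg okh _ _
  nlinarith [mul_nonneg hC.le hP]

/-- **upper bound for the number `2 k` of arms in annuli** -/
theorem t_ANE : S_ALE → Pool.Agent.H160R2.MU.S_UB → S_ANE := by
  intro hA hH k d hk hd
  obtain ⟨C1, hC1, R00, h10⟩ := hA k d hk hd
  obtain ⟨R0, hR0d⟩ : ∃ R0 : ℕ, R0 = max R00 k := ⟨_, rfl⟩
  have h1 := fun R (h : R0 ≤ R) => h10 R (by omega)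
  obtain ⟨C2, hC2, h2⟩ := hH k hk
  obtain ⟨s, hs⟩ : ∃ s : ℝ, s = (4 * (k : ℝ) ^ 2 - 1) / 12 := ⟨_, rfl⟩
  have hk2 : (2 : ℝ) ≤ k := by exact_mod_cast hk
  have hs0 : 0 ≤ s := by rw [hs]; nlinarith
  refine ⟨C1 * C2 + ((R0 : ℝ) + 1) ^ s, by positivity, ?_⟩
  intro R hR
  have hR1 : (1 : ℝ) ≤ R := by exact_mod_cast hR
  have hR0 : (0 : ℝ) < R := by linarith
  rw [← hs]
  have hpos : 0 < (R : ℝ) ^ (-s) := Real.rpow_pos_of_pos hR0 _
  by_cases h : R0 ≤ R
  · have h3 := h2 R (by omega)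
    rw [← hs] at h3
    calc _ ≤ C1 * sP k R := h1 R h
      _ ≤ C1 * (C2 * (R : ℝ) ^ (-s)) := mul_le_mul_of_nonneg_left h3 hC1.le
      _ ≤ (C1 * C2 + ((R0 : ℝ) + 1) ^ s) * (R : ℝ) ^ (-s) := by
        have : 0 ≤ ((R0 : ℝ) + 1) ^ s * (R : ℝ) ^ (-s) := by positivity
        linarith
  · push Not at h
    have h4 : (R : ℝ) ≤ (R0 : ℝ) + 1 := by
      have : (R : ℝ) ≤ R0 := by exact_mod_cast h.le
      linarith
    have h5 : (1 : ℝ) ≤ ((R0 : ℝ) + 1) ^ s * (R : ℝ) ^ (-s) := by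
      rw [Real.rpow_neg hR0.le, ← div_eq_mul_inv, le_div_iff₀ (Real.rpow_pos_of_pos hR0 _), one_mul]
      exact Real.rpow_le_rpow hR0.le h4 hs0
    refine (Pr_le_one okh _ _).trans (h5.trans ?_)
    have : 0 ≤ C1 * C2 * (R : ℝ) ^ (-s) := by positivity
    linarith


end Pool.Agent.W658.KE
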