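import Pool.Agent.W658.KE.Stm

/-!
# The modified configuration has the arms around the slit (second copy)
-/

set_option autoImplicit false

namespace Pool.Agent.W658.KE.FIEb

open H974 H906.Cyl
open Pool.Agent.H160R2.ML (nm KArm annE)
open Pool.Agent.H160R2.MU (CL Cb sv SE sP)
open Pool.Agent.W801.OU (bxz)
open Pool.Agent.W658.KT (nd Dd An Rn rotV rk Nrm S_OUT S_ORD)
open Pool.Agent.W658.KE

theorem nd_edge (e : Edg) : nd (tgt e) ≤ nd (src e) + 1 ∧ nd (src e) ≤ nd (tgt e) + 1 := by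
  obtain ⟨x, y, b⟩ := e
  cases b
  · rw [src_mk, tgt_false]
    unfold nd
    simp only
    rcases abs_cases y with ⟨h1, h2⟩ | ⟨h1, h2⟩ <;>
    rcases abs_cases (y + 1) with ⟨h3, h4⟩ | ⟨h3, h4⟩ <;>
    rw [h1, h3] <;> constructor <;> linarith
  · rw [src_mk, tgt_true]
    unfold nd
    simp only
    rcases abs_cases x with ⟨h1, h2⟩ | ⟨h1, h2⟩ <;>
    rcases abs_cases (x + 1) with ⟨h3, h4⟩ | ⟨h3, h4⟩ <;>
    rw [h1, h3] <;> constructor <;> linarith

theorem nm_le_nd (v : Vtx) : nm v ≤ nd v := by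
  unfold nm nd
  have h1 := abs_nonneg v.1
  have h2 := abs_nonneg v.2
  apply max_le <;> linarith

theorem out_edge {n : ℤ} {e : Edg} (he : e ∉ Dd n) :
    n ≤ nd (src e) ∧ n ≤ nd (tgt e) := by
  have h := nd_edge e
  have h2 : ¬ (nd (src e) ≤ n ∧ nd (tgt e) ≤ n) := he
  constructor
  · by_contra hc
    apply h2
    constructor <;> omega
  · by_contra hc
    apply h2
    constructor <;> omega

theorem rn_ge {n R : ℤ} {F : Set Edg} {u v : Vtx} (hu : n ≤ nd u) (h : Rn n R F u v) :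
    n ≤ nd v := by
  unfold Rn Reach at h
  induction h with
  | refl => exact hu
  | tail _ hs _ =>
    obtain ⟨e, he, h1 | h1⟩ := hs
    · rw [← h1.2]
      exact (out_edge he.2.2).2
    · rw [← h1.1]
      exact (out_edge he.2.2).1

/-- the cluster number `i` -/
def KK (n R : ℕ) (a : ℕ → Vtx) (Q : ℕ → Set (Vtx × Bool)) (F : Set Edg) (i : ℕ) :
    Set (Vtx × Bool) := {z | z ∈ Q i ∨ Rn n R F (a i) z.1}

/-- the modified configuration -/
def Gm (k n : ℕ) (Q : ℕ → Set (Vtx × Bool)) (F : Set Edg) : Set Edg :=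
  {e | ∃ i < k, (src e, sd e) ∈ Q i ∧ (tgt e, sd e) ∈ Q i} ∪ (F \ Dd n)

section
variable {k n R : ℕ} {a : ℕ → Vtx} {Q : ℕ → Set (Vtx × Bool)} {F : Set Edg}

theorem q_not_K (hP : Pte k n a Q) (hT : Te k n R a F) {i j : ℕ} (hi : i < k) (hj : j < k)
    (hij : i ≠ j) {z : Vtx × Bool} (hz : z ∈ Q j) : z ∉ KK n R a Q F i := by
  rintro (h | h)
  · exact hP.dj i j hi hj hij z h hz
  · have h1 : (n : ℤ) ≤ nd z.1 := rn_ge (by rw [hT.1 i hi]) h
    have h2 := hP.bd j hj z hz
    have h3 : z.1 = a j := h2.2 (le_antisymm h2.1 h1)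
    rw [h3] at h
    exact hT.2.2 i j hi hj hij h

theorem q_box (hP : Pte k n a Q) (hnR : n < R) {i : ℕ} (hi : i < k) {z : Vtx × Bool}
    (hz : z ∈ Q i) : nm z.1 ≤ (R : ℤ) := by
  have h1 := (hP.bd i hi z hz).1
  have h2 := nm_le_nd z.1
  have h3 : (n : ℤ) < R := by exact_mod_cast hnR
  linarith

/-- an edge of the annulus keeps the cluster -/
theorem K_ann (hP : Pte k n a Q) {i : ℕ} (hi : i < k) {e : Edg} (he : e ∈ F ∩ An n R)
    (β : Bool) : ((src e, β) ∈ KK n R a Q F i ↔ (tgt e, β) ∈ KK n R a Q F i) := by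
  have ho := out_edge he.2.2
  constructor
  · intro h
    right
    have hr : Rn n R F (a i) (src e) := by
      rcases h with h | h
      · have h2 := hP.bd i hi _ h
        have h3 : src e = a i := h2.2 (le_antisymm h2.1 ho.1)
        rw [← h3]
        exact Relation.ReflTransGen.refl
      · exact h
    exact Relation.ReflTransGen.tail hr ⟨e, he, Or.inl ⟨rfl, rfl⟩⟩
  · intro h
    right
    have hr : Rn n R F (a i) (tgt e) := by
      rcases h with h | h
      · have h2 := hP.bd i hi _ h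
        have h3 : tgt e = a i := h2.2 (le_antisymm h2.1 ho.2)
        rw [← h3]
        exact Relation.ReflTransGen.refl
      · exact h
    exact Relation.ReflTransGen.tail hr ⟨e, he, Or.inr ⟨rfl, rfl⟩⟩

theorem K_link (hP : Pte k n a Q) (hT : Te k n R a F) {i : ℕ} (hi : i < k)
    {z w : Vtx × Bool} (h : CL k R (Gm k n Q F) z w) :
    (z ∈ KK n R a Q F i ↔ w ∈ KK n R a Q F i) := by
  cases h with
  | edge e he h1 h2 =>
    rcases he with ⟨j, hj, h3, h4⟩ | he
    · by_cases hij : i = j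
      · subst hij
        exact ⟨fun _ => Or.inl h4, fun _ => Or.inl h3⟩
      · exact ⟨fun h => absurd h (q_not_K hP hT hi hj hij h3),
          fun h => absurd h (q_not_K hP hT hi hj hij h4)⟩
    · exact K_ann hP hi ⟨he.1, ⟨h1, h2⟩, he.2⟩ _
  | idn v h1 h2 =>
    have h3 := hP.cp i hi v h2
    constructor
    · rintro (h | h)
      · exact Or.inl (h3.1 h)
      · exact Or.inr h
    · rintro (h | h)
      · exact Or.inl (h3.2 h)
      · exact Or.inr h

theorem K_conn (hP : Pte k n a Q) (hT : Te k n R a F) {i : ℕ} (hi : i < k)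
    {z w : Vtx × Bool} (h : Cb k R (Gm k n Q F) z w) :
    (z ∈ KK n R a Q F i ↔ w ∈ KK n R a Q F i) := by
  unfold Cb at h
  induction h with
  | rel x y h => exact K_link hP hT hi h
  | refl x => exact Iff.rfl
  | symm x y _ ih => exact ih.symm
  | trans x y z _ _ ih1 ih2 => exact ih1.trans ih2

theorem slit_lt (hP : Pte k n a Q) (hT : Te k n R a F) {v : Vtx} (hv : Slt k v) :
    nd v < n := by
  obtain ⟨x, y⟩ := v
  obtain ⟨h1, h2, h3⟩ := hv
  simp only at h1 h2 h3
  subst h1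
  obtain ⟨j, rfl⟩ : ∃ j : ℕ, x = j := ⟨x.toNat, by omega⟩
  have t1 := hP.tip (k - 1 - j) (by omega)
  have t2 := hP.tip (j - 1) (by omega)
  have e1 : sv k (2 * (k - 1 - (k - 1 - j))) = (((j : ℤ), (j : ℤ)), false) := by
    have e : 2 * (k - 1 - (k - 1 - j)) = 2 * j := by omega
    rw [e]
    unfold sv
    rw [if_pos (by omega)]
    have e' : 2 * j / 2 = j := by omega
    rw [e']
  have e2 : sv k (2 * (k - 1 - (j - 1))) = (((j : ℤ), (j : ℤ)), true) := by
    unfold sv
    rw [if_neg (by omega)]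
    have e' : (2 * k - 2 * (k - 1 - (j - 1))) / 2 = j := by omega
    rw [e']
  rw [e1] at t1
  rw [e2] at t2
  have b1 := hP.bd _ (by omega) _ t1
  have b2 := hP.bd _ (by omega) _ t2
  simp only at b1 b2
  rcases lt_or_eq_of_le b1.1 with h | h
  · exact h
  · exfalso
    have c1 := b1.2 h
    have c2 := b2.2 h
    have c3 := hT.2.2 (k - 1 - j) (j - 1) (by omega) (by omega) (by omega)
    apply c3
    rw [← c1, ← c2]
    exact Relation.ReflTransGen.refl

/-- the paths of the system are connected in the cut box -/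
theorem Cq_Cb (hP : Pte k n a Q) (hnR : n < R) {i : ℕ} (hi : i < k) {z w : Vtx × Bool}
    (h : Cq k (Q i) z w) : Cb k R (Gm k n Q F) z w := by
  unfold Cq at h
  induction h with
  | rel x y h =>
    apply Relation.EqvGen.rel
    cases h with
    | edge e h1 h2 =>
      have g : e ∈ Gm k n Q F := Or.inl ⟨i, hi, h1, h2⟩
      have b1 : nm (src e) ≤ (R : ℤ) := q_box (z := (src e, sd e)) hP hnR hi h1
      have b2 : nm (tgt e) ≤ (R : ℤ) := q_box (z := (tgt e, sd e)) hP hnR hi h2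
      exact CL.edge e g b1 b2
    | idn v h1 h2 h3 =>
      have b1 : nm v ≤ (R : ℤ) := q_box (z := (v, false)) hP hnR hi h2
      exact CL.idn v b1 h1
  | refl x => exact Relation.EqvGen.refl x
  | symm x y _ ih => exact ih.symm
  | trans x y z _ _ ih1 ih2 => exact ih1.trans _ _ _ ih2

theorem flat (hP : Pte k n a Q) (hT : Te k n R a F) {v : Vtx} (h1 : (n : ℤ) ≤ nd v)
    (h2 : nm v ≤ (R : ℤ)) (β : Bool) : Cb k R (Gm k n Q F) (v, false) (v, β) := by
  cases β
  · exact Relation.EqvGen.refl _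
  · apply Relation.EqvGen.rel
    apply CL.idn v h2
    intro h
    have := slit_lt hP hT (v := v) h
    omega

theorem walk (hP : Pte k n a Q) (hT : Te k n R a F) {i : ℕ} {w : Vtx}
    (h : Rn n R F (a i) w) : Cb k R (Gm k n Q F) (a i, false) (w, false) := by
  unfold Rn Reach at h
  induction h with
  | refl => exact Relation.EqvGen.refl _
  | tail _ hs ih =>
    obtain ⟨e, he, h1⟩ := hs
    have ho := out_edge he.2.2
    have hb := he.2.1
    have l : Cb k R (Gm k n Q F) (src e, decide (0 ≤ dco e)) (tgt e, decide (0 ≤ dco e)) :=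
      Relation.EqvGen.rel _ _ (CL.edge e (Or.inr ⟨he.1, he.2.2⟩) hb.1 hb.2)
    have f1 := flat hP hT (F := F) ho.1 hb.1 (decide (0 ≤ dco e))
    have f2 := flat hP hT (F := F) ho.2 hb.2 (decide (0 ≤ dco e))
    have l2 : Cb k R (Gm k n Q F) (src e, false) (tgt e, false) :=
      (f1.trans _ _ _ l).trans _ _ _ f2.symm
    rcases h1 with ⟨h3, h4⟩ | ⟨h3, h4⟩
    · rw [← h3] at ih
      rw [← h4]
      exact ih.trans _ _ _ l2
    · rw [← h4] at ih
      rw [← h3]
      exact ih.trans _ _ _ l2.symm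

end

end Pool.Agent.W658.KE.FIEb

namespace Pool.Agent.W658.KE

open H974 H906.Cyl
open Pool.Agent.H160R2.ML (nm KArm annE)
open Pool.Agent.H160R2.MU (CL Cb sv SE sP)
open Pool.Agent.W658.KT (nd Dd An Rn rotV rk Nrm S_OUT S_ORD)
open Pool.Agent.W658.KE.FIEb

theorem t_FIE : S_FIE := by
  intro k n R a Q F hk hnR hP hT
  change SE k R (Gm k n Q F)
  have tip : ∀ i : ℕ, i < 2 * k → i % 2 = 0 → ∃ i' < k, i = 2 * (k - 1 - i') ∧ sv k i ∈ Q i' := by
    intro i h1 h2
    refine ⟨k - 1 - i / 2, by omega, by omega, ?_⟩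
    have := hP.tip (k - 1 - i / 2) (by omega)
    have e : 2 * (k - 1 - (k - 1 - i / 2)) = i := by omega
    rwa [e] at this
  refine ⟨?_, ?_⟩
  · intro i j hi hj hi2 hj2 hij h
    obtain ⟨i', hi', ei, ti⟩ := tip i hi hi2
    obtain ⟨j', hj', ej, tj⟩ := tip j hj hj2
    have hne : i' ≠ j' := by
      intro e
      apply hij
      rw [ei, ej, e]
    have h1 := (K_conn hP hT hi' h).1 (Or.inl ti)
    exact q_not_K hP hT hi' hj' hne tj h1
  · intro i hi hi2
    obtain ⟨i', hi', ei, ti⟩ := tip i hi hi2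
    obtain ⟨w, hw, hr⟩ := hT.2.1 i' hi'
    refine ⟨w, false, hw, ?_⟩
    have h1 := Cq_Cb (R := R) (F := F) hP hnR hi' (hP.con i' hi' _ ti)
    exact h1.symm.trans _ _ _ (walk hP hT hr)

end Pool.Agent.W658.KE
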