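import Pool.Agent.W658.KE.Stm

/-!
# Paths inside the rectangle around the slit (step `S_INE`)
-/

set_option autoImplicit false

namespace Pool.Agent.W658.KE
open H974 H906.Cyl
open Pool.Agent.H160R2.ML (nm KArm annE)
open Pool.Agent.H160R2.MU (CL Cb sv SE sP)

namespace INEb

theorem sw {k : ℕ} {Q : Set (Vtx × Bool)} {v : Vtx} (h : ¬ Slt k v) (hQ : ∀ b, (v, b) ∈ Q)
    (b : Bool) : Cq k Q (v, false) (v, b) := by
  cases b with
  | false => exact Relation.EqvGen.refl _
  | true => exact Relation.EqvGen.rel _ _ (Lq.idn v h (hQ false) (hQ true))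

theorem stp {k : ℕ} {Q : Set (Vtx × Bool)} (e : Edg) (h : ¬ Slt k (src e)) (h' : ¬ Slt k (tgt e))
    (hQ : ∀ b, (src e, b) ∈ Q) (hQ' : ∀ b, (tgt e, b) ∈ Q) :
    Cq k Q (src e, false) (tgt e, false) :=
  Relation.EqvGen.trans _ _ _ (sw h hQ (sd e))
    (Relation.EqvGen.trans _ _ _ (Relation.EqvGen.rel _ _ (Lq.edge e (hQ _) (hQ' _)))
      (Relation.EqvGen.symm _ _ (sw h' hQ' (sd e))))

theorem hsg {k : ℕ} {Q : Set (Vtx × Bool)} (y x1 x2 : ℤ) (hx : x1 ≤ x2)
    (h : ∀ x, x1 ≤ x → x ≤ x2 → ¬ Slt k (x, y) ∧ ∀ b, (((x, y) : Vtx), b) ∈ Q) :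
    Cq k Q ((x1, y), false) ((x2, y), false) := by
  obtain ⟨n, rfl⟩ := Int.le.dest hx
  induction n with
  | zero => simp only [Nat.cast_zero, add_zero]; exact Relation.EqvGen.refl _
  | succ n ih =>
    have h1 := ih (by omega) (fun x hx1 hx2 => h x hx1 (by push_cast; omega))
    have ht : tgt (x1 + n, y, true) = (x1 + (n + 1 : ℕ), y) := by
      rw [tgt_true]
      push_cast
      rw [add_assoc]
    have h2 := stp (k := k) (Q := Q) (x1 + n, y, true)
      (h (x1 + n) (by omega) (by push_cast; omega)).1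
      (by rw [ht]; exact (h _ (by omega) le_rfl).1)
      (h (x1 + n) (by omega) (by push_cast; omega)).2
      (by rw [ht]; exact (h _ (by omega) le_rfl).2)
    rw [ht] at h2
    exact Relation.EqvGen.trans _ _ _ h1 h2

theorem vsg {k : ℕ} {Q : Set (Vtx × Bool)} (x y1 y2 : ℤ) (hy : y1 ≤ y2)
    (h : ∀ y, y1 ≤ y → y ≤ y2 → ¬ Slt k (x, y) ∧ ∀ b, (((x, y) : Vtx), b) ∈ Q) :
    Cq k Q ((x, y1), false) ((x, y2), false) := by
  obtain ⟨n, rfl⟩ := Int.le.dest hy
  induction n with
  | zero => simp only [Nat.cast_zero, add_zero]; exact Relation.EqvGen.refl _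
  | succ n ih =>
    have h1 := ih (by omega) (fun y hy1 hy2 => h y hy1 (by push_cast; omega))
    have ht : tgt (x, y1 + n, false) = (x, y1 + (n + 1 : ℕ)) := by
      rw [tgt_false]
      push_cast
      rw [add_assoc]
    have h2 := stp (k := k) (Q := Q) (x, y1 + n, false)
      (h (y1 + n) (by omega) (by push_cast; omega)).1
      (by rw [ht]; exact (h _ (by omega) le_rfl).1)
      (h (y1 + n) (by omega) (by push_cast; omega)).2
      (by rw [ht]; exact (h _ (by omega) le_rfl).2)
    rw [ht] at h2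
    exact Relation.EqvGen.trans _ _ _ h1 h2

/-- the column of the path -/
def cc (k : ℕ) (y0 : ℤ) (i : ℕ) : ℤ := if 1 ≤ y0 then 2 * k + 2 - i else 2 * k + 2 + i

/-- the left end of the row -/
def ss (k i : ℕ) : ℤ := if 2 * (i + 1) < k then i + 1 else (k : ℤ) - 1 - i

/-- the paths -/
def PI (k : ℕ) (X y0 : ℤ) (i : ℕ) : Set Vtx :=
  {v | (cc k y0 i ≤ v.1 ∧ v.1 ≤ X ∧ v.2 = y0 + i) ∨
    (v.1 = cc k y0 i ∧ ((y0 + i ≤ v.2 ∧ v.2 ≤ i + 1) ∨ (i + 1 ≤ v.2 ∧ v.2 ≤ y0 + i))) ∨
    (ss k i ≤ v.1 ∧ v.1 ≤ cc k y0 i ∧ v.2 = i + 1) ∨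
    (k ≤ 2 * (i + 1) ∧ v.1 = (k : ℤ) - 1 - i ∧ (k : ℤ) - 1 - i ≤ v.2 ∧ v.2 ≤ i + 1)}

theorem mem_PI (k : ℕ) (X y0 : ℤ) (i : ℕ) (x y : ℤ) : (x, y) ∈ PI k X y0 i ↔
    (cc k y0 i ≤ x ∧ x ≤ X ∧ y = y0 + i) ∨
    (x = cc k y0 i ∧ ((y0 + i ≤ y ∧ y ≤ i + 1) ∨ (i + 1 ≤ y ∧ y ≤ y0 + i))) ∨
    (ss k i ≤ x ∧ x ≤ cc k y0 i ∧ y = i + 1) ∨
    (k ≤ 2 * (i + 1) ∧ x = (k : ℤ) - 1 - i ∧ (k : ℤ) - 1 - i ≤ y ∧ y ≤ i + 1) := Iff.rfl

/-- the copies -/
def QI (k : ℕ) (X y0 : ℤ) (i : ℕ) : Set (Vtx × Bool) :=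
  {z | z.1 ∈ PI k X y0 i ∧ (Slt k z.1 → z.2 = decide (2 * (i + 1) < k))}

theorem slt_iff (k : ℕ) (x y : ℤ) : Slt k (x, y) ↔ x = y ∧ 0 < 2 * x ∧ 2 * x < k := Iff.rfl

theorem sv_A (k i : ℕ) (hi : i < k) (h : 2 * (i + 1) < k) :
    sv k (2 * (k - 1 - i)) = (((i : ℤ) + 1, (i : ℤ) + 1), true) := by
  unfold sv
  rw [if_neg (by omega)]
  have : (2 * k - 2 * (k - 1 - i)) / 2 = i + 1 := by omega
  rw [this]
  push_cast
  rfl

theorem sv_B (k i : ℕ) (hi : i < k) (h : ¬ 2 * (i + 1) < k) :
    sv k (2 * (k - 1 - i)) = (((k : ℤ) - 1 - i, (k : ℤ) - 1 - i), false) := by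
  unfold sv
  rw [if_pos (by omega)]
  have h1 : (2 * (k - 1 - i)) / 2 = k - 1 - i := by omega
  rw [h1]
  have h2 : ((k - 1 - i : ℕ) : ℤ) = (k : ℤ) - 1 - i := by omega
  rw [h2]

end INEb

open INEb in
theorem INEb.t_INE : S_INE := by
  intro k X Y y0 hk hX hY hkY
  have hc : ∀ i : ℕ, i < k → 2 * (k : ℤ) + 2 - i ≤ cc k y0 i ∧ cc k y0 i ≤ 2 * k + 2 + i := by
    intro i hi
    unfold cc
    split_ifs <;> constructor <;> omega
  have hs : ∀ i : ℕ, i < k → 0 ≤ ss k i ∧ ss k i ≤ k := by
    intro i hi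
    unfold ss
    split_ifs <;> constructor <;> omega
  refine ⟨QI k X y0, ?_, ?_, ?_, ?_, ?_, ?_⟩
  · rintro i hi ⟨⟨x, y⟩, b⟩ ⟨hv, _⟩
    simp only at hv
    rw [mem_PI] at hv
    have h1 := hc i hi
    have h2 := hs i hi
    simp only
    have h3 := abs_le.mp (show |y0| ≤ Y - k by omega)
    rw [abs_le, abs_le]
    rcases hv with hv | hv | hv | hv
    · refine ⟨⟨?_, ?_⟩, ?_, ?_⟩ <;> omega
    · refine ⟨⟨?_, ?_⟩, ?_, ?_⟩ <;> omega
    · refine ⟨⟨?_, ?_⟩, ?_, ?_⟩ <;> omega
    · refine ⟨⟨?_, ?_⟩, ?_, ?_⟩ <;> omega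
  · intro i _ v hv
    constructor
    · rintro ⟨h1, _⟩
      exact ⟨h1, fun h => absurd h hv⟩
    · rintro ⟨h1, _⟩
      exact ⟨h1, fun h => absurd h hv⟩
  · rintro i j hij hj ⟨⟨x, y⟩, b⟩ ⟨hv, hvb⟩ ⟨hw, hwb⟩
    simp only at hv hvb hw hwb
    rw [mem_PI] at hv hw
    rw [slt_iff] at hvb hwb
    by_cases h1 : 2 * (i + 1) < k
    · by_cases h2 : 2 * (j + 1) < k
      · unfold cc ss at hv hw
        rw [if_pos h1] at hv
        rw [if_pos h2] at hw
        split_ifs at hv hw <;> omega
      · by_cases h3 : x = y ∧ 0 < 2 * x ∧ 2 * x < k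
        · have e1 := hvb h3
          have e2 := hwb h3
          rw [e1] at e2
          simp [h1, h2] at e2
        · unfold cc ss at hv hw
          rw [if_pos h1] at hv
          rw [if_neg h2] at hw
          split_ifs at hv hw <;> omega
    · have h2 : ¬ 2 * (j + 1) < k := by omega
      unfold cc ss at hv hw
      rw [if_neg h1] at hv
      rw [if_neg h2] at hw
      split_ifs at hv hw <;> omega
  · intro i hi
    have h1 := hc i hi
    refine ⟨?_, ?_⟩
    · show ((X, y0 + i) : Vtx) ∈ PI k X y0 i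
      rw [mem_PI]
      left
      refine ⟨?_, le_rfl, rfl⟩
      omega
    · intro h
      exfalso
      have h' : Slt k (X, y0 + i) := h
      rw [slt_iff] at h'
      omega
  · intro i hi
    have h1 := hc i hi
    by_cases h : 2 * (i + 1) < k
    · rw [sv_A k i hi h]
      refine ⟨?_, fun _ => by simp [h]⟩
      show (((i : ℤ) + 1, (i : ℤ) + 1) : Vtx) ∈ PI k X y0 i
      rw [mem_PI]
      right; right; left
      unfold ss
      rw [if_pos h]
      refine ⟨le_rfl, ?_, rfl⟩
      omega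
    · rw [sv_B k i hi h]
      refine ⟨?_, fun _ => by simp [h]⟩
      show (((k : ℤ) - 1 - i, (k : ℤ) - 1 - i) : Vtx) ∈ PI k X y0 i
      rw [mem_PI]
      right; right; right
      refine ⟨by omega, rfl, le_rfl, ?_⟩
      omega
  · rintro i hi ⟨⟨x, y⟩, b⟩ ⟨hv, hvb⟩
    simp only at hv hvb
    have h1 := hc i hi
    have h2 := hs i hi
    have full : ∀ x y : ℤ, (x, y) ∈ PI k X y0 i → ¬ Slt k (x, y) →
        ¬ Slt k (x, y) ∧ ∀ b, (((x, y) : Vtx), b) ∈ QI k X y0 i := by
      intro x y h3 h4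
      exact ⟨h4, fun b => ⟨h3, fun h => absurd h h4⟩⟩
    have r1 : ∀ x, cc k y0 i ≤ x → x ≤ X →
        Cq k (QI k X y0 i) ((X, y0 + i), false) ((x, y0 + i), false) := by
      intro x hx1 hx2
      refine Relation.EqvGen.symm _ _ (hsg _ _ _ hx2 fun z hz1 hz2 => full _ _ ?_ ?_)
      · rw [mem_PI]
        left
        exact ⟨by omega, hz2, rfl⟩
      · rw [slt_iff]
        omega
    have r2 : ∀ y, ((y0 + i ≤ y ∧ y ≤ i + 1) ∨ (i + 1 ≤ y ∧ y ≤ y0 + i)) →
        Cq k (QI k X y0 i) ((X, y0 + i), false) ((cc k y0 i, y), false) := by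
      intro y hy
      refine Relation.EqvGen.trans _ _ _ (r1 (cc k y0 i) le_rfl (by omega)) ?_
      rcases hy with hy | hy
      · refine vsg _ _ _ hy.1 fun z hz1 hz2 => full _ _ ?_ ?_
        · rw [mem_PI]
          right; left
          refine ⟨rfl, ?_⟩
          omega
        · rw [slt_iff]
          omega
      · refine Relation.EqvGen.symm _ _ (vsg _ _ _ hy.2 fun z hz1 hz2 => full _ _ ?_ ?_)
        · rw [mem_PI]
          right; left
          refine ⟨rfl, ?_⟩
          omega
        · rw [slt_iff]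
          omega
    have r3 : ∀ x, ss k i ≤ x → x ≤ cc k y0 i → (2 * (i + 1) < k → (i : ℤ) + 2 ≤ x) →
        Cq k (QI k X y0 i) ((X, y0 + i), false) ((x, (i : ℤ) + 1), false) := by
      intro x hx1 hx2 hx3
      refine Relation.EqvGen.trans _ _ _ (r2 (i + 1) (by omega)) ?_
      refine Relation.EqvGen.symm _ _ (hsg _ _ _ hx2 fun z hz1 hz2 => full _ _ ?_ ?_)
      · rw [mem_PI]
        right; right; left
        exact ⟨by omega, hz2, rfl⟩
      · rw [slt_iff]
        by_cases h : 2 * (i + 1) < k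
        · have := hx3 h
          omega
        · omega
    have r4 : ¬ 2 * (i + 1) < k → ∀ y : ℤ, (k : ℤ) - 1 - i < y → y ≤ i + 1 →
        Cq k (QI k X y0 i) ((X, y0 + i), false) (((k : ℤ) - 1 - i, y), false) := by
      intro h y hy1 hy2
      have hsi : ss k i = (k : ℤ) - 1 - i := by
        unfold ss
        rw [if_neg h]
      refine Relation.EqvGen.trans _ _ _ (r3 ((k : ℤ) - 1 - i) hsi.le (by omega)
        (fun h' => absurd h' h)) ?_
      refine Relation.EqvGen.symm _ _ (vsg _ _ _ hy2 fun z hz1 hz2 => full _ _ ?_ ?_)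
      · rw [mem_PI]
        right; right; right
        exact ⟨by omega, rfl, by omega, hz2⟩
      · rw [slt_iff]
        omega
    by_cases hsl : Slt k (x, y)
    · -- the tip
      have hb := hvb hsl
      rw [slt_iff] at hsl
      obtain ⟨rfl, hx0, hxk⟩ := hsl
      rw [mem_PI] at hv
      by_cases h : 2 * (i + 1) < k
      · have hxi : x = i + 1 := by
          unfold ss at hv
          rw [if_pos h] at hv
          omega
        subst hxi
        have hb' : b = true := by rw [hb]; simp [h]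
        subst hb'
        have hsd : sd ((i : ℤ) + 1, (i : ℤ) + 1, true) = true := by
          unfold sd dco
          simp
        have ht : tgt ((i : ℤ) + 1, (i : ℤ) + 1, true) = ((i : ℤ) + 2, (i : ℤ) + 1) := by
          rw [tgt_true]
          refine Prod.ext ?_ rfl
          simp only
          ring
        have hmem2 : ((i : ℤ) + 2, (i : ℤ) + 1) ∈ PI k X y0 i := by
          rw [mem_PI]
          right; right; left
          unfold ss
          rw [if_pos h]
          exact ⟨by omega, by omega, rfl⟩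
        have hns2 : ¬ Slt k ((i : ℤ) + 2, (i : ℤ) + 1) := by
          rw [slt_iff]; omega
        have hsi : ss k i = (i : ℤ) + 1 := by
          unfold ss
          rw [if_pos h]
        have e1 := r3 ((i : ℤ) + 2) (by omega) (by omega) (fun _ => le_rfl)
        have e2 := sw (full _ _ hmem2 hns2).1 (full _ _ hmem2 hns2).2 true
        have e3 := Lq.edge (k := k) (Q := QI k X y0 i) ((i : ℤ) + 1, (i : ℤ) + 1, true)
          (by rw [hsd]
              refine ⟨?_, fun _ => by simp [h]⟩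
              show (((i : ℤ) + 1, (i : ℤ) + 1) : Vtx) ∈ PI k X y0 i
              rw [mem_PI]
              right; right; left
              exact ⟨by omega, by omega, rfl⟩)
          (by rw [ht]
              exact (full _ _ hmem2 hns2).2 _)
        rw [ht, hsd] at e3
        exact Relation.EqvGen.trans _ _ _ e1 (Relation.EqvGen.trans _ _ _ e2
          (Relation.EqvGen.symm _ _ (Relation.EqvGen.rel _ _ e3)))
      · have hxi : x = (k : ℤ) - 1 - i := by
          unfold ss at hv
          rw [if_neg h] at hv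
          omega
        subst hxi
        have hb' : b = false := by rw [hb]; simp [h]
        subst hb'
        have hsd : sd ((k : ℤ) - 1 - i, (k : ℤ) - 1 - i, false) = false := by
          unfold sd dco
          simp
        have ht : tgt ((k : ℤ) - 1 - i, (k : ℤ) - 1 - i, false)
            = ((k : ℤ) - 1 - i, (k : ℤ) - 1 - i + 1) := by
          rw [tgt_false]
        have e1 := r4 h ((k : ℤ) - 1 - i + 1) (by omega) (by omega)
        have e3 := Lq.edge (k := k) (Q := QI k X y0 i)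
          ((k : ℤ) - 1 - i, (k : ℤ) - 1 - i, false)
          (by rw [hsd]
              refine ⟨?_, fun _ => by simp [h]⟩
              show (((k : ℤ) - 1 - i, (k : ℤ) - 1 - i) : Vtx) ∈ PI k X y0 i
              rw [mem_PI]
              right; right; right
              exact ⟨by omega, rfl, le_rfl, by omega⟩)
          (by rw [ht]
              have hm : ((k : ℤ) - 1 - i, (k : ℤ) - 1 - i + 1) ∈ PI k X y0 i := by
                rw [mem_PI]
                right; right; right
                exact ⟨by omega, rfl, by omega, by omega⟩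
              have hn : ¬ Slt k ((k : ℤ) - 1 - i, (k : ℤ) - 1 - i + 1) := by
                rw [slt_iff]; omega
              exact (full _ _ hm hn).2 _)
        rw [ht, hsd] at e3
        exact Relation.EqvGen.trans _ _ _ e1
          (Relation.EqvGen.symm _ _ (Relation.EqvGen.rel _ _ e3))
    · refine Relation.EqvGen.trans _ _ _ ?_ (sw (full _ _ hv hsl).1 (full _ _ hv hsl).2 b)
      have hv' := hv
      rw [mem_PI] at hv
      rw [slt_iff] at hsl
      rcases hv with hv | hv | hv | hv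
      · obtain ⟨ha, hb, rfl⟩ := hv
        exact r1 x ha hb
      · obtain ⟨rfl, hb⟩ := hv
        exact r2 y hb
      · obtain ⟨ha, hb, rfl⟩ := hv
        refine r3 x ha hb fun h => ?_
        unfold ss at ha
        rw [if_pos h] at ha
        omega
      · obtain ⟨ha, rfl, hb, hc'⟩ := hv
        have hnk : ¬ 2 * (i + 1) < k := by omega
        by_cases hym : y = (k : ℤ) - 1 - i
        · subst hym
          have hsi : ss k i = (k : ℤ) - 1 - i := by
            unfold ss
            rw [if_neg hnk]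
          by_cases hyi : (k : ℤ) - 1 - i = i + 1
          · have e := r3 ((k : ℤ) - 1 - i) hsi.le (by omega) (fun h' => absurd h' hnk)
            rw [← hyi] at e
            exact e
          · refine Relation.EqvGen.trans _ _ _ (r4 hnk ((k : ℤ) - 1 - i + 1) (by omega)
              (by omega)) ?_
            refine Relation.EqvGen.symm _ _ (vsg _ _ _ (by omega) fun z hz1 hz2 =>
              full _ _ ?_ ?_)
            · rw [mem_PI]
              right; right; right
              exact ⟨ha, rfl, by omega, by omega⟩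
            · rw [slt_iff]
              omega
        · exact r4 hnk y (by omega) hc'

end Pool.Agent.W658.KE
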