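import Pool.Agent.W658.KE.Stm
import Pool.Agent.H974R2.Split

/-!
# Lower bound for a larger inner radius
-/

set_option autoImplicit false

namespace Pool.Agent.W658.KE
open H974 H906.Cyl
open Pool.Agent.H160R2.ML (nm KArm S_PL)

namespace LOEs

theorem abs_step (x : ℤ) : |x + 1| ≤ |x| + 1 ∧ |x| ≤ |x + 1| + 1 := by
  constructor
  · calc |x + 1| ≤ |x| + |1| := abs_add_le _ _
      _ = |x| + 1 := by norm_num
  · calc |x| = |(x + 1) + (-1)| := by ring_nf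
      _ ≤ |x + 1| + |(-1 : ℤ)| := abs_add_le _ _
      _ = |x + 1| + 1 := by norm_num

theorem nm_step (e : Edg) : nm (tgt e) ≤ nm (src e) + 1 ∧ nm (src e) ≤ nm (tgt e) + 1 := by
  obtain ⟨x, y, b⟩ := e
  have hx := abs_step x
  have hy := abs_step y
  cases b
  · simp only [nm, src, tgt, Bool.false_eq_true, if_false]
    omega
  · simp only [nm, src, tgt, if_true]
    omega

theorem adj_nm {G : Set Edg} {u v : Vtx} (h : H974.Adj G u v) : nm v ≤ nm u + 1 := by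
  obtain ⟨e, _, ⟨rfl, rfl⟩ | ⟨rfl, rfl⟩⟩ := h
  · exact (nm_step e).1
  · exact (nm_step e).2

/-- the last vertex in the box -/
theorem last_exit {G : Set Edg} {a d R : ℤ} {u w : Vtx}
    (h : Reach (G ∩ Pool.Agent.H160R2.ML.annE a R) u w) (hw : d < nm w) :
    (d < nm u ∧ Reach (G ∩ Pool.Agent.H160R2.ML.annE d R) u w) ∨
      ∃ u₁, nm u₁ = d ∧ Reach (G ∩ Pool.Agent.H160R2.ML.annE a R) u u₁ ∧
        Reach (G ∩ Pool.Agent.H160R2.ML.annE d R) u₁ w := by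
  induction h using Relation.ReflTransGen.head_induction_on with
  | refl => exact Or.inl ⟨hw, Reach.refl _ _⟩
  | head hs ht ih =>
    rename_i p c
    rcases ih with ⟨h1, h2⟩ | ⟨u₁, h1, h2, h3⟩
    · have hn := adj_nm hs.symm
      have hadj : d ≤ nm p → H974.Adj (G ∩ Pool.Agent.H160R2.ML.annE d R) p c := by
        intro hp
        obtain ⟨e, ⟨he, ha⟩, hh⟩ := hs
        refine ⟨e, ⟨he, ?_⟩, hh⟩
        obtain ⟨⟨-, a2⟩, -, a4⟩ := ha
        rcases hh with ⟨h4, h5⟩ | ⟨h4, h5⟩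
        · exact ⟨⟨by rw [h4]; exact hp, a2⟩, by rw [h5]; exact h1.le, a4⟩
        · exact ⟨⟨by rw [h4]; exact h1.le, a2⟩, by rw [h5]; exact hp, a4⟩
      by_cases hu : d < nm p
      · exact Or.inl ⟨hu, Relation.ReflTransGen.head (hadj hu.le) h2⟩
      · have h6 : nm c ≤ nm p + 1 := adj_nm hs
        exact Or.inr ⟨p, by omega, Reach.refl _ _, Relation.ReflTransGen.head (hadj (by omega)) h2⟩
    · exact Or.inr ⟨u₁, h1, Relation.ReflTransGen.head hs h2, h3⟩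

theorem karm {k : ℕ} {a d R : ℤ} {G : Set Edg} (had : a ≤ d) (hdR : d ≤ R) (h : KArm k a R G) :
    KArm k d R G := by
  obtain ⟨x, h1, h2⟩ := h
  have hsub : G ∩ Pool.Agent.H160R2.ML.annE d R ⊆ G ∩ Pool.Agent.H160R2.ML.annE a R := by
    rintro e ⟨he, ⟨a1, a2⟩, a3, a4⟩
    exact ⟨he, ⟨had.trans a1, a2⟩, had.trans a3, a4⟩
  have key : ∀ i, ∃ z : Vtx, nm z = d ∧ Reach (G ∩ Pool.Agent.H160R2.ML.annE a R) (x i) z ∧
      ∃ y, nm y = R ∧ Reach (G ∩ Pool.Agent.H160R2.ML.annE d R) z y := by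
    intro i
    obtain ⟨b1, y, b2, b3⟩ := h1 i
    rcases lt_or_eq_of_le hdR with hlt | heq
    · rcases last_exit b3 (by rw [b2]; exact hlt) with ⟨c1, c2⟩ | ⟨u₁, c1, c2, c3⟩
      · omega
      · exact ⟨u₁, c1, c2, y, b2, c3⟩
    · exact ⟨y, by omega, b3, y, b2, Reach.refl _ _⟩
  choose z hz1 hz2 y hy1 hy2 using key
  refine ⟨z, fun i => ⟨hz1 i, y i, hy1 i, hy2 i⟩, fun i j hij h => h2 i j hij ?_⟩
  exact (hz2 i).trans ((h.mono hsub).trans (hz2 j).symm)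

end LOEs

open LOEs in
theorem t_LOE : S_PL → S_LOE := by
  intro h k d hk hd
  obtain ⟨c, hc, h1⟩ := h k hk
  refine ⟨c, hc, fun R hR => le_trans (h1 R (by omega)) ?_⟩
  refine Pr_mono (okq (by norm_num) (by norm_num)) (fun F _ hF => ?_)
  exact karm (by exact_mod_cast hd) (by exact_mod_cast hR) hF

end Pool.Agent.W658.KE
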