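import Pool.Agent.W658.KE.Stm

/-! # Union of the two parts of the system of paths, even numbers of arms (t_PTE) -/

set_option autoImplicit false

namespace Pool.Agent.W658.KE
open H974 H906.Cyl
open Pool.Agent.H160R2.ML (nm KArm annE)
open Pool.Agent.H160R2.MU (CL Cb sv SE sP)
open Pool.Agent.W801.OU (bxz)
open Pool.Agent.W658.KT (nd Dd An Rn rotV rk Nrm S_OUT S_ORD)

namespace TPTE

lemma Cq_mono {k : ℕ} {Q Q' : Set (Vtx × Bool)} (h : Q ⊆ Q') {y z : Vtx × Bool}
    (hc : Cq k Q y z) : Cq k Q' y z := by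
  have hl : ∀ a b, Lq k Q a b → Lq k Q' a b := by
    intro a b hab
    cases hab with
    | edge e h1 h2 => exact Lq.edge e (h h1) (h h2)
    | idn v h1 h2 h3 => exact Lq.idn v h1 (h h2) (h h3)
  induction hc with
  | rel a b hab => exact Relation.EqvGen.rel _ _ (hl a b hab)
  | refl a => exact Relation.EqvGen.refl _
  | symm a b _ ih => exact Relation.EqvGen.symm _ _ ih
  | trans a b c _ _ ih1 ih2 => exact Relation.EqvGen.trans _ _ _ ih1 ih2

lemma flip {k : ℕ} {Q : Set (Vtx × Bool)} (v : Vtx) (hs : ¬ Slt k v) (h0 : (v, false) ∈ Q)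
    (h1 : (v, true) ∈ Q) (b b' : Bool) : Cq k Q (v, b) (v, b') := by
  have h := Relation.EqvGen.rel _ _ (Lq.idn v hs h0 h1)
  cases b <;> cases b'
  · exact Relation.EqvGen.refl _
  · exact h
  · exact Relation.EqvGen.symm _ _ h
  · exact Relation.EqvGen.refl _

lemma reach {k : ℕ} {Q : Set (Vtx × Bool)} {P : Set Vtx} (hs : ∀ v ∈ P, ¬ Slt k v)
    (hP : ∀ v ∈ P, ∀ b : Bool, (v, b) ∈ Q) {u v : Vtx}
    (h : Reach {e | src e ∈ P ∧ tgt e ∈ P} u v) : Cq k Q (u, false) (v, false) := by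
  have hfl : ∀ v ∈ P, ∀ b b' : Bool, Cq k Q (v, b) (v, b') := fun v hv b b' =>
    flip v (hs v hv) (hP v hv _) (hP v hv _) b b'
  induction h with
  | refl => exact Relation.EqvGen.refl _
  | tail _ hst ih =>
    refine Relation.EqvGen.trans _ _ _ ih ?_
    obtain ⟨e, ⟨he1, he2⟩, h⟩ := hst
    have h1 : Cq k Q (src e, false) (tgt e, false) :=
      Relation.EqvGen.trans _ _ _ (hfl _ he1 false (sd e))
        (Relation.EqvGen.trans _ _ _
          (Relation.EqvGen.rel _ _ (Lq.edge e (hP _ he1 _) (hP _ he2 _)))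
          (hfl _ he2 (sd e) false))
    rcases h with ⟨h2, h3⟩ | ⟨h2, h3⟩
    · rw [← h2, ← h3]
      exact h1
    · rw [← h2, ← h3]
      exact Relation.EqvGen.symm _ _ h1

end TPTE

open TPTE in
theorem t_PTE : S_OUT → S_INE → S_PTE := by
  intro hO hI k n X a hk hN
  obtain ⟨P, hP1, hP2, hP3, hP4⟩ := hO (k - 1) n X a (by omega) hN
  have hk1 : ((k - 1 : ℕ) : ℤ) = k - 1 := by
    rw [Nat.cast_sub (by omega), Nat.cast_one]
  have hx1 := hN.x1
  have hx2 := hN.x2
  have hnn := hN.nn 0 (Nat.zero_le _)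
  have hwin := hN.win 0 (Nat.zero_le _)
  have hrt := hN.rt
  rw [hk1] at hx1 hx2 hwin
  rw [hk1] at hP1 hP3
  have hk0 : (2 : ℤ) ≤ k := by exact_mod_cast hk
  have hy0 : |(a 0).2| + k ≤ n - X - k - 1 := by
    unfold nd at hnn
    have h4 : |(a 0).1| = (a 0).1 := abs_of_pos (by linarith)
    rcases hwin with h2 | h2 <;> linarith
  obtain ⟨Q, hQ1, hQ2, hQ3, hQ4, hQ5, hQ6⟩ := hI k (X - k - 1) (n - X - k - 1) (a 0).2 hk
    (by linarith) hy0 (by linarith)
  have hbox : ∀ i < k, ∀ v ∈ P i, ¬ (|v.1| ≤ X - k - 1 ∧ |v.2| ≤ n - X - k - 1) := by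
    intro i hi v hv hc
    refine (hP1 i (by omega) v hv).2.2 ⟨?_, ?_⟩
    · linarith [hc.1]
    · linarith [hc.2]
  have hslt : ∀ v : Vtx, Slt k v → |v.1| ≤ X - k - 1 ∧ |v.2| ≤ n - X - k - 1 := by
    intro v hv
    obtain ⟨h1, h2, h3⟩ := hv
    rw [← h1, abs_of_pos (by linarith)]
    constructor <;> linarith
  have hPQ : ∀ i j, i < k → j < k → ∀ z : Vtx × Bool, z.1 ∈ P i → z ∉ Q j := by
    intro i j hi hj z hz hz'
    exact hbox i hi z.1 hz (hQ1 j hj z hz')
  have hPP : ∀ i j, i < k → j < k → i ≠ j → ∀ v, v ∈ P i → v ∉ P j := by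
    intro i j hi hj hij v hv hv'
    rcases lt_or_gt_of_ne hij with h | h
    · exact hP2 i j h (by omega) v hv hv'
    · exact hP2 j i h (by omega) v hv' hv
  have hQQ : ∀ i j, i < k → j < k → i ≠ j → ∀ z, z ∈ Q i → z ∉ Q j := by
    intro i j hi hj hij v hv hv'
    rcases lt_or_gt_of_ne hij with h | h
    · exact hQ3 i j h hj v hv hv'
    · exact hQ3 j i h hi v hv' hv
  refine ⟨fun i => {z | z.1 ∈ P i} ∪ Q i, ?_, ?_, ?_, ?_, ?_, ?_⟩
  · intro i hi z hz
    rcases hz with hz | hz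
    · exact ⟨(hP1 i (by omega) z.1 hz).1, (hP1 i (by omega) z.1 hz).2.1⟩
    · have h1 := hQ1 i hi z hz
      have h2 : nd z.1 < n := by
        unfold nd
        linarith [h1.1, h1.2]
      exact ⟨h2.le, fun h => absurd h h2.ne⟩
  · intro i hi v hv
    constructor
    · rintro (h | h)
      · exact Or.inl h
      · exact Or.inr ((hQ2 i hi v hv).1 h)
    · rintro (h | h)
      · exact Or.inl h
      · exact Or.inr ((hQ2 i hi v hv).2 h)
  · intro i j hi hj hij z hz hz'
    rcases hz with hz | hz <;> rcases hz' with hz' | hz'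
    · exact hPP i j hi hj hij z.1 hz hz'
    · exact hPQ i j hi hj z hz hz'
    · exact hPQ j i hj hi z hz' hz
    · exact hQQ i j hi hj hij z hz hz'
  · intro i hi
    exact Or.inl (hP3 i (by omega)).1
  · intro i hi
    exact Or.inr (hQ5 i hi)
  · intro i hi z hz
    have hs : ∀ v ∈ P i, ¬ Slt k v := fun v hv h => hbox i hi v hv (hslt v h)
    have hm : ∀ v ∈ P i, ∀ b : Bool, (v, b) ∈ ({z | z.1 ∈ P i} ∪ Q i : Set (Vtx × Bool)) :=
      fun v hv b => Or.inl hv
    rcases hz with hz | hz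
    · obtain ⟨v, b⟩ := z
      exact Relation.EqvGen.trans _ _ _ (reach hs hm (hP4 i (by omega) v hz))
        (flip v (hs v hz) (hm v hz _) (hm v hz _) false b)
    · have h3 := (hP3 i (by omega)).2
      have h1 : Cq k ({z | z.1 ∈ P i} ∪ Q i) (a i, false)
          ((X - ((k : ℤ) - 1) - 1, (a 0).2 + i), false) :=
        reach hs hm (hP4 i (by omega) _ h3)
      have hq0 : (((X - k - 1, (a 0).2 + i) : Vtx), false) ∈ Q i := hQ4 i hi
      have hns : ¬ Slt k (X - k - 1, (a 0).2 + i) := by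
        rintro ⟨_, _, h⟩
        have h' : 2 * (X - k - 1) < k := h
        linarith
      have hq1 : (((X - k - 1, (a 0).2 + i) : Vtx), true) ∈ Q i := (hQ2 i hi _ hns).1 hq0
      have hqb : ∀ b : Bool, (((X - k - 1, (a 0).2 + i) : Vtx), b) ∈ Q i := by
        intro b
        cases b
        · exact hq0
        · exact hq1
      have e1 : ((X - k - 1 + 1, (a 0).2 + i) : Vtx) = (X - ((k : ℤ) - 1) - 1, (a 0).2 + i) := by
        rw [Prod.mk.injEq]
        exact ⟨by ring, rfl⟩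
      set e : Edg := (X - k - 1, (a 0).2 + i, true) with he
      have hsrc : src e = (X - k - 1, (a 0).2 + i) := rfl
      have htgt : tgt e = (X - ((k : ℤ) - 1) - 1, (a 0).2 + i) := by
        rw [he, tgt_true, e1]
      have h4 : Cq k ({z | z.1 ∈ P i} ∪ Q i) (src e, sd e) (tgt e, sd e) := by
        refine Relation.EqvGen.rel _ _ (Lq.edge e ?_ ?_)
        · rw [hsrc]
          exact Or.inr (hqb _)
        · rw [htgt]
          exact Or.inl h3
      rw [hsrc, htgt] at h4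
      have h5 : Cq k ({z | z.1 ∈ P i} ∪ Q i) ((X - ((k : ℤ) - 1) - 1, (a 0).2 + i), false)
          ((X - ((k : ℤ) - 1) - 1, (a 0).2 + i), sd e) :=
        flip _ (hs _ h3) (hm _ h3 _) (hm _ h3 _) _ _
      have h6 : Cq k ({z | z.1 ∈ P i} ∪ Q i) ((X - k - 1, (a 0).2 + i), sd e)
          ((X - k - 1, (a 0).2 + i), false) :=
        flip _ hns (Or.inr hq0) (Or.inr hq1) _ _
      have h7 : Cq k ({z | z.1 ∈ P i} ∪ Q i) ((X - k - 1, (a 0).2 + i), false) z :=
        Cq_mono Set.subset_union_right (hQ6 i hi z hz)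
      exact Relation.EqvGen.trans _ _ _ h1 (Relation.EqvGen.trans _ _ _ h5
        (Relation.EqvGen.trans _ _ _ (Relation.EqvGen.symm _ _ h4)
          (Relation.EqvGen.trans _ _ _ h6 h7)))

end Pool.Agent.W658.KE

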