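import Pool.Agent.W658.KE.Stm
import Pool.Agent.W658.KT.T_TOK

set_option autoImplicit false

/-!
# Tokens of `k` crossing clusters: the last exits from the rotated box
-/

namespace Pool.Agent.W658.KE
open H974 H906.Cyl
open Pool.Agent.H160R2.ML (nm KArm annE)
open Pool.Agent.W801.OU (bxz)
open Pool.Agent.W658.KT (nd Dd An Rn)

namespace TTOE
open Pool.Agent.W658.KT.TTOK

theorem nm_step (e : Edg) : nm (tgt e) ≤ nm (src e) + 1 ∧ nm (src e) ≤ nm (tgt e) + 1 := by
  obtain ⟨h1, h2⟩ := edge_cases e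
  rw [h1]
  have m1 := le_max_left |e.1| |e.2.1|
  have m2 := le_max_right |e.1| |e.2.1|
  rcases h2 with h | h
  · rw [h]
    unfold nm
    have := abs_step e.1
    have m3 := le_max_left |e.1 + 1| |e.2.1|
    have m4 := le_max_right |e.1 + 1| |e.2.1|
    constructor
    · exact max_le (by simp only; linarith [this.1]) (by simp only; linarith)
    · exact max_le (by simp only; linarith [this.2]) (by simp only; linarith)
  · rw [h]
    unfold nm
    have := abs_step e.2.1
    have m3 := le_max_left |e.1| |e.2.1 + 1|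
    have m4 := le_max_right |e.1| |e.2.1 + 1|
    constructor
    · exact max_le (by simp only; linarith) (by simp only; linarith [this.1])
    · exact max_le (by simp only; linarith) (by simp only; linarith [this.2])

end TTOE

open TTOE Pool.Agent.W658.KT.TTOK in
/-- from the annulus to tokens -/
theorem t_TOE : S_TOE := by
  intro k d n R F hdn hnR hA
  obtain ⟨x, h1, h2⟩ := hA
  have hdn' : (2 * d : ℤ) ≤ n := by exact_mod_cast hdn
  have hnR' : (n : ℤ) < R := by exact_mod_cast hnR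
  have hnd : ∀ u : Vtx, nm u = d → ¬ (n : ℤ) < nd u := by
    intro u hu
    have := nd_le u
    rw [hu] at this
    omega
  have hnR'' : ∀ u : Vtx, nm u = R → (n : ℤ) < nd u := by
    intro u hu
    have := nm_le_nd u
    rw [hu] at this
    omega
  have hsub : (F ∩ annE (d : ℤ) (R : ℤ)) \ Dd (n : ℤ) ⊆ F ∩ An n R := by
    rintro e ⟨⟨e1, e2⟩, e3⟩
    exact ⟨e1, ⟨e2.1.2, e2.2.2⟩, e3⟩
  have hmono : ∀ a b : Vtx, Rn n R F a b → Reach (F ∩ annE (d : ℤ) (R : ℤ)) a b := by
    intro a b h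
    refine reach_mono ?_ h
    rintro e ⟨e1, ⟨e2, e3⟩, e4⟩
    have f1 := nd_le (src e)
    have f2 := nd_le (tgt e)
    obtain ⟨s1, s2⟩ := nm_step e
    have e5 : ¬ (nd (src e) ≤ n ∧ nd (tgt e) ≤ n) := e4
    refine ⟨e1, ⟨?_, e2⟩, ⟨?_, e3⟩⟩
    · by_contra hcon
      push Not at hcon
      apply e5
      constructor <;> omega
    · by_contra hcon
      push Not at hcon
      apply e5
      constructor <;> omega
  have hcl : ∀ i : ℕ, ∃ u : Vtx, ∀ hi : i < k, nd u = n ∧
      Reach (F ∩ annE (d : ℤ) (R : ℤ)) (x ⟨i, hi⟩) u ∧ ∃ w, nm w = R ∧ Rn n R F u w := by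
    intro i
    by_cases hi : i < k
    · obtain ⟨a1, w, a2, a3⟩ := h1 ⟨i, hi⟩
      obtain ⟨u, b1, b2, b3⟩ := (last_exit a3 (hnR'' w a2)).resolve_left
        (fun h => hnd _ a1 h.1)
      exact ⟨u, fun _ => ⟨b1, b2, w, a2, reach_mono hsub b3⟩⟩
    · exact ⟨(0, 0), fun h => absurd h hi⟩
  choose u hu using hcl
  refine ⟨u, fun i hi => (hu i hi).1, fun i hi => (hu i hi).2.2, ?_⟩
  intro i j hi hj hij h
  refine h2 ⟨i, hi⟩ ⟨j, hj⟩ (fun hh => hij (by simpa using hh)) ?_
  exact ((hu i hi).2.1.trans (hmono _ _ h)).trans (hu j hj).2.1.symm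

end Pool.Agent.W658.KE
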