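import Pool.Agent.H160R2.MU.All
import Pool.Agent.W658.KT.T_ORD
import Pool.Agent.W658.KT.T_OUT
import Pool.Agent.W658.KE.T_TOE
import Pool.Agent.W658.KE.T_INEb
import Pool.Agent.W658.KE.T_PTE
import Pool.Agent.W658.KE.T_FIEb
import Pool.Agent.W658.KE.T_ROE
import Pool.Agent.W658.KE.T_ANEs
import Pool.Agent.W658.KE.T_LOEs
import Pool.Agent.W658.KE.Law

/-!
# Even arm exponents in annuli: assembly
-/

set_option autoImplicit false

namespace Pool.Agent.W658.KE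
open MeasureTheory
open Pool.Agent.H160R2.ML.TFIN (crit)

theorem a_PTE : S_PTE := t_PTE KT.t_OUT INEb.t_INE
theorem a_MOE : S_MOE := t_MOE a_PTE t_FIE
theorem a_ALE : S_ALE := t_ALE a_MOE KT.t_ORD t_ROE t_TOE
theorem a_ANE : S_ANE := t_ANE a_ALE Pool.Agent.H160R2.MU.a_UB
theorem a_LOE : S_LOE := t_LOE Pool.Agent.H160R2.ML.a_PL

/-- **even arm exponents in annuli** -/
theorem a_LAW : ∀ k d : ℕ, 2 ≤ k → k ≤ d → ∃ c C : ℝ, 0 < c ∧ 0 < C ∧ ∀ n : ℕ, d ≤ n →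
    c * (n : ℝ) ^ (-((4 * (k : ℝ) ^ 2 - 1) / 12)) ≤ crit.real {ω | Law.Clusters k d n ω} ∧
    crit.real {ω | Law.Clusters k d n ω} ≤ C * (n : ℝ) ^ (-((4 * (k : ℝ) ^ 2 - 1) / 12)) :=
  t_LAW a_ANE a_LOE

end Pool.Agent.W658.KE
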