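import Pool.Agent.W658.KT.Stm
import Pool.Agent.H160R2.MU.Defs

/-!
# From annuli to the slit event (routing), even numbers of arms: definitions and steps
(every step is a `Prop`; the file `T_X.lean` proves `t_X` from its hypotheses)

`k` crossing clusters of the annulus leave the rotated box `|x| + |y| ≤ n` at `k` vertices (tokens).
They are connected inside the rotated box, cut along the slit `(i, i)`, `0 < 2 i < k`, with the tips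
`MU.sv k (2 i)` by disjoint connected sets.
-/

set_option autoImplicit false

namespace Pool.Agent.W658.KE
open H974 H906.Cyl
open Pool.Agent.H160R2.ML (nm KArm annE)
open Pool.Agent.H160R2.MU (CL Cb sv SE sP)
open Pool.Agent.W801.OU (bxz)
open Pool.Agent.W658.KT (nd Dd An Rn rotV rk Nrm S_OUT S_ORD)

/-- `k` clusters of the annulus between the rotated box of radius `n` and the box of radius `R`, with
given starting vertices -/
def Te (k n R : ℕ) (a : ℕ → Vtx) (F : Set Edg) : Prop :=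
  (∀ i < k, nd (a i) = n) ∧
  (∀ i < k, ∃ w, nm w = R ∧ Rn n R F (a i) w) ∧
  (∀ i j, i < k → j < k → i ≠ j → ¬ Rn n R F (a i) (a j))

/-- vertices of the slit -/
def Slt (k : ℕ) (v : Vtx) : Prop := v.1 = v.2 ∧ 0 < 2 * v.1 ∧ 2 * v.1 < k

/-- side of an edge -/
def sd (e : Edg) : Bool := decide (0 ≤ dco e)

/-- connection inside a set of copies of vertices of the cut box -/
inductive Lq (k : ℕ) (Q : Set (Vtx × Bool)) : Vtx × Bool → Vtx × Bool → Prop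
  | edge (e : Edg) : (src e, sd e) ∈ Q → (tgt e, sd e) ∈ Q → Lq k Q (src e, sd e) (tgt e, sd e)
  | idn (v : Vtx) : ¬ Slt k v → (v, false) ∈ Q → (v, true) ∈ Q → Lq k Q (v, false) (v, true)

def Cq (k : ℕ) (Q : Set (Vtx × Bool)) : Vtx × Bool → Vtx × Bool → Prop :=
  Relation.EqvGen (Lq k Q)

/-! ## steps -/

/-- from the annulus to tokens (last exits from the rotated box) -/
def S_TOE : Prop := ∀ (k d n R : ℕ) (F : Set Edg), 2 * d ≤ n → n < R → KArm k d R F →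
  ∃ a : ℕ → Vtx, Te k n R a F

/-- paths from parallel rows to the tips -/
def S_INE : Prop := ∀ (k : ℕ) (X Y y0 : ℤ), 2 ≤ k → 6 * k + 6 ≤ X → |y0| + k ≤ Y → 2 * k ≤ Y →
  ∃ Q : ℕ → Set (Vtx × Bool),
    (∀ i < k, ∀ z ∈ Q i, |z.1.1| ≤ X ∧ |z.1.2| ≤ Y) ∧
    (∀ i < k, ∀ v : Vtx, ¬ Slt k v → ((v, false) ∈ Q i ↔ (v, true) ∈ Q i)) ∧
    (∀ i j, i < j → j < k → ∀ z ∈ Q i, z ∉ Q j) ∧
    (∀ i < k, (((X, y0 + i) : Vtx), false) ∈ Q i) ∧
    (∀ i < k, sv k (2 * (k - 1 - i)) ∈ Q i) ∧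
    (∀ i < k, ∀ z ∈ Q i, Cq k (Q i) (((X, y0 + i) : Vtx), false) z)

/-- the system of paths of the tokens `a` -/
structure Pte (k n : ℕ) (a : ℕ → Vtx) (Q : ℕ → Set (Vtx × Bool)) : Prop where
  bd : ∀ i < k, ∀ z ∈ Q i, nd z.1 ≤ n ∧ (nd z.1 = n → z.1 = a i)
  cp : ∀ i < k, ∀ v : Vtx, ¬ Slt k v → ((v, false) ∈ Q i ↔ (v, true) ∈ Q i)
  dj : ∀ i j, i < k → j < k → i ≠ j → ∀ z ∈ Q i, z ∉ Q j
  am : ∀ i < k, (a i, false) ∈ Q i
  tip : ∀ i < k, sv k (2 * (k - 1 - i)) ∈ Q i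
  con : ∀ i < k, ∀ z ∈ Q i, Cq k (Q i) (a i, false) z

/-- the two parts together (from `KT.S_OUT`, `S_INE`) -/
def S_PTE : Prop := ∀ (k n : ℕ) (X : ℤ) (a : ℕ → Vtx), 2 ≤ k → Nrm (k - 1) n X a →
  ∃ Q : ℕ → Set (Vtx × Bool), Pte k n a Q

/-- the modified configuration has the arms around the slit -/
def S_FIE : Prop := ∀ (k n R : ℕ) (a : ℕ → Vtx) (Q : ℕ → Set (Vtx × Bool)) (F : Set Edg), 2 ≤ k →
  n < R → Pte k n a Q → Te k n R a F →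
  SE k R ({e | ∃ i < k, (src e, sd e) ∈ Q i ∧ (tgt e, sd e) ∈ Q i} ∪ (F \ Dd n))

/-- rotation invariance -/
def S_ROE : Prop := ∀ (k n R : ℕ) (a : ℕ → Vtx),
  Pr (fun _ => (1 / 2 : ℝ)) (boxE R) (fun F => Te k n R a (↑F : Set Edg)) ≤
    Pr (fun _ => (1 / 2 : ℝ)) (boxE R) (fun F => Te k n R (fun i => rotV (a i)) (↑F : Set Edg))

/-- one family of tokens (from `S_PTE`, `S_FIE`) -/
def S_MOE : Prop := ∀ k n : ℕ, 2 ≤ k → ∃ C : ℝ, 0 < C ∧ ∀ (R : ℕ) (X : ℤ) (a : ℕ → Vtx), n < R →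
  Nrm (k - 1) n X a → Pr (fun _ => (1 / 2 : ℝ)) (boxE R) (fun F => Te k n R a (↑F : Set Edg)) ≤
    C * sP k R

/-- all the tokens (from `S_MOE`, `KT.S_ORD`, `S_ROE`, `S_TOE`) -/
def S_ALE : Prop := ∀ k d : ℕ, 2 ≤ k → 1 ≤ d → ∃ C : ℝ, 0 < C ∧ ∃ R0 : ℕ, ∀ R : ℕ, R0 ≤ R →
  Pr (fun _ => (1 / 2 : ℝ)) (boxE R) (fun F => KArm k d R (↑F : Set Edg)) ≤ C * sP k R

/-- **upper bound for the number `2 k` of arms in annuli** (from `S_ALE` and `MU.S_UB`) -/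
def S_ANE : Prop := ∀ k d : ℕ, 2 ≤ k → 1 ≤ d → ∃ C : ℝ, 0 < C ∧ ∀ R : ℕ, 1 ≤ R →
  Pr (fun _ => (1 / 2 : ℝ)) (boxE R) (fun F => KArm k d R (↑F : Set Edg)) ≤
    C * (R : ℝ) ^ (-((4 * (k : ℝ) ^ 2 - 1) / 12))

/-- **lower bound in annuli with inner radius `d ≥ k`** (from `ML.S_PL`) -/
def S_LOE : Prop := ∀ k d : ℕ, 1 ≤ k → k ≤ d → ∃ c : ℝ, 0 < c ∧ ∀ R : ℕ, d ≤ R →
  c * (R : ℝ) ^ (-((4 * (k : ℝ) ^ 2 - 1) / 12)) ≤
    Pr (fun _ => (1 / 2 : ℝ)) (boxE R) (fun F => KArm k d R (↑F : Set Edg))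

end Pool.Agent.W658.KE
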