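import Pool.Agent.W658.KE.Stm

/-!
# Upper bound for `2 k` arms in annuli: counting, union bound and assembly (helper214)
-/

set_option autoImplicit false

namespace Pool.Agent.W658.KE
open H974 H906.Cyl
open Pool.Agent.H160R2.ML (nm KArm annE)
open Pool.Agent.H160R2.MU (CL Cb sv SE sP)
open Pool.Agent.W801.OU (bxz)
open Pool.Agent.W658.KT (nd Dd An Rn rotV rk Nrm S_OUT S_ORD)

namespace TANE

theorem bxz_iff {R : ℕ} {e : Edg} : e ∈ bxz R ↔ e ∈ boxE R := by
  constructor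
  · rintro ⟨h1, h2⟩
    obtain ⟨x, y, _ | _⟩ := e
    · simp only [nm, src_mk, tgt_false, max_le_iff, abs_le] at h1 h2
      rw [boxE, mem_RE_false]
      omega
    · simp only [nm, src_mk, tgt_true, max_le_iff, abs_le] at h1 h2
      rw [boxE, mem_RE_true]
      omega
  · intro h
    obtain ⟨x, y, _ | _⟩ := e
    · rw [boxE, mem_RE_false] at h
      refine ⟨?_, ?_⟩ <;> simp only [nm, src_mk, tgt_false, max_le_iff, abs_le] <;> omega
    · rw [boxE, mem_RE_true] at h
      refine ⟨?_, ?_⟩ <;> simp only [nm, src_mk, tgt_true, max_le_iff, abs_le] <;> omega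

theorem pr_half (S : Finset Edg) (A : Finset Edg → Prop) [DecidablePred A] :
    Pr (fun _ => (1 / 2 : ℝ)) S A = (1 / 2 : ℝ) ^ S.card * ((S.powerset.filter A).card : ℝ) := by
  classical
  unfold Pr Ex
  rw [Finset.card_filter, Nat.cast_sum, Finset.mul_sum]
  refine Finset.sum_congr rfl fun F hF => ?_
  have hF' := Finset.mem_powerset.1 hF
  rw [Finset.prod_const, Finset.prod_const, show (1 - 1 / 2 : ℝ) = 1 / 2 by norm_num, ← pow_add,
    Finset.card_sdiff_of_subset hF', Nat.add_sub_cancel' (Finset.card_le_card hF')]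
  congr 1
  show ind (A F) = _
  by_cases h : A F
  · rw [ind_of h, if_pos h]
    norm_num
  · rw [ind_not_of h, if_neg h]
    norm_num

theorem nm_le_nd (v : Vtx) : nm v ≤ nd v := by
  unfold nm nd
  have h1 := abs_nonneg v.1
  have h2 := abs_nonneg v.2
  omega

/-- comparison up to the number of configurations of a small box -/
theorem count_le (E E' : Finset Edg) (A B : Finset Edg → Prop)
    (f : Finset Edg → Finset Edg × Finset Edg)
    (h1 : ∀ F, F ⊆ E → A F → (f F).1 ⊆ E ∧ B (f F).1 ∧ (f F).2 ⊆ E')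
    (h2 : ∀ F F', F ⊆ E → F' ⊆ E → A F → A F' → f F = f F' → F = F') :
    Pr (fun _ => (1 / 2 : ℝ)) E A ≤ 2 ^ E'.card * Pr (fun _ => (1 / 2 : ℝ)) E B := by
  classical
  rw [pr_half, pr_half]
  have hc : (E.powerset.filter A).card ≤ (E.powerset.filter B).card * E'.powerset.card := by
    rw [← Finset.card_product]
    refine Finset.card_le_card_of_injOn f ?_ ?_
    · intro F hF
      simp only [Finset.coe_filter, Finset.mem_powerset, Set.mem_ofPred_eq] at hF
      obtain ⟨h3, h4, h5⟩ := h1 F hF.1 hF.2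
      simp only [Finset.coe_product, Set.mem_prod, Finset.mem_coe, Finset.mem_filter,
        Finset.mem_powerset]
      exact ⟨⟨h3, h4⟩, h5⟩
    · intro F hF F' hF' he
      simp only [Finset.coe_filter, Finset.mem_powerset, Set.mem_ofPred_eq] at hF hF'
      exact h2 F F' hF.1 hF'.1 hF.2 hF'.2 he
  rw [Finset.card_powerset] at hc
  have hc' : ((E.powerset.filter A).card : ℝ) ≤
      ((E.powerset.filter B).card : ℝ) * 2 ^ E'.card := by exact_mod_cast hc
  calc (1 / 2 : ℝ) ^ E.card * ((E.powerset.filter A).card : ℝ)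
      ≤ (1 / 2 : ℝ) ^ E.card * (((E.powerset.filter B).card : ℝ) * 2 ^ E'.card) :=
        mul_le_mul_of_nonneg_left hc' (by positivity)
    _ = _ := by ring

end TANE

open TANE

/-- one family of tokens -/
theorem t_MOE : S_PTE → S_FIE → S_MOE := by
  classical
  intro hP hF k n hk
  refine ⟨2 ^ (boxE n).card, by positivity, ?_⟩
  intro R X a hnR hN
  obtain ⟨P, hPP⟩ := hP k n X a hk hN
  obtain ⟨Q, hQ⟩ : ∃ Q : Set Edg, Q = {e | ∃ i < k, (src e, sd e) ∈ P i ∧ (tgt e, sd e) ∈ P i} :=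
    ⟨_, rfl⟩
  have hnR' : (n : ℤ) < R := by exact_mod_cast hnR
  have hQD : Q ⊆ Dd n := by
    intro e he
    rw [hQ] at he
    obtain ⟨i, hi, h1, h2⟩ := he
    exact ⟨(hPP.bd i hi _ h1).1, (hPP.bd i hi _ h2).1⟩
  have hDb : ∀ e ∈ Dd (n : ℤ), e ∈ boxE n := by
    intro e he
    rw [← bxz_iff]
    exact ⟨(nm_le_nd _).trans he.1, (nm_le_nd _).trans he.2⟩
  have hDR : ∀ e ∈ Dd (n : ℤ), e ∈ boxE R := fun e he => boxE_mono hnR.le (hDb e he)
  obtain ⟨g, hg⟩ : ∃ g : Finset Edg → Finset Edg, ∀ F e, e ∈ g F ↔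
      e ∈ boxE R ∧ e ∈ Q ∪ ((↑F : Set Edg) \ Dd n) :=
    ⟨fun F => (boxE R).filter (fun e => e ∈ Q ∪ ((↑F : Set Edg) \ Dd n)), fun F e => by
      rw [Finset.mem_filter]⟩
  obtain ⟨g', hg'⟩ : ∃ g' : Finset Edg → Finset Edg, ∀ F e, e ∈ g' F ↔ e ∈ F ∧ e ∈ Dd (n : ℤ) :=
    ⟨fun F => F.filter (fun e => e ∈ Dd (n : ℤ)), fun F e => by rw [Finset.mem_filter]⟩
  have hco : ∀ F, F ⊆ boxE R → (↑(g F) : Set Edg) = Q ∪ ((↑F : Set Edg) \ Dd n) := by
    intro F hFR
    ext e
    rw [Finset.mem_coe, hg]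
    refine ⟨fun h => h.2, fun h => ⟨?_, h⟩⟩
    rcases h with h | h
    · exact hDR e (hQD h)
    · exact hFR (Finset.mem_coe.1 h.1)
  unfold sP
  refine count_le (boxE R) (boxE n) _ _ (fun F => (g F, g' F)) ?_ ?_
  · intro F hFR hT
    refine ⟨fun e he => ((hg F e).1 he).1, ?_, fun e he => hDb e ((hg' F e).1 he).2⟩
    show SE k R (↑(g F) : Set Edg)
    rw [hco F hFR, hQ]
    exact hF k n R a P (↑F : Set Edg) hk hnR hPP hT
  · intro F F' hFR hFR' _ _ he
    have e1 : g F = g F' := congrArg Prod.fst he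
    have e2 : g' F = g' F' := congrArg Prod.snd he
    have key : ∀ F₁ F₂ : Finset Edg, F₁ ⊆ boxE R → g F₁ = g F₂ → g' F₁ = g' F₂ → F₁ ⊆ F₂ := by
      intro F₁ F₂ hF₁ e1 e2 e he
      by_cases hD : e ∈ Dd (n : ℤ)
      · have : e ∈ g' F₁ := (hg' F₁ e).2 ⟨he, hD⟩
        rw [e2] at this
        exact ((hg' F₂ e).1 this).1
      · have : e ∈ g F₁ := (hg F₁ e).2 ⟨hF₁ he, Or.inr ⟨Finset.mem_coe.2 he, hD⟩⟩
        rw [e1] at this
        rcases ((hg F₂ e).1 this).2 with h | h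
        · exact absurd (hQD h) hD
        · exact Finset.mem_coe.1 h.1
    exact Finset.Subset.antisymm (key F F' hFR e1 e2) (key F' F hFR' e1.symm e2.symm)

namespace TANE

/-- permutation of the clusters -/
theorem te_perm {k n R : ℕ} {a : ℕ → Vtx} {F : Set Edg} {b : ℕ → ℕ}
    (hb : ∀ i < k, b i < k) (hbi : ∀ i j, i < k → j < k → b i = b j → i = j)
    (h : Te k n R a F) : Te k n R (fun i => a (b i)) F := by
  obtain ⟨h1, h2, h3⟩ := h
  refine ⟨fun i hi => h1 _ (hb i hi), fun i hi => h2 _ (hb i hi), ?_⟩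
  intro i j hi hj hij
  exact h3 _ _ (hb i hi) (hb j hj) (fun hbb => hij (hbi i j hi hj hbb))

theorem te_inj {k n R : ℕ} {a : ℕ → Vtx} {F : Set Edg} (h : Te k n R a F) :
    ∀ i j, i < k → j < k → a i = a j → i = j := by
  obtain ⟨-, -, h3⟩ := h
  intro i j hi hj hij
  by_contra hne
  refine h3 i j hi hj hne ?_
  rw [hij]
  exact Reach.refl _ _

/-- only the first tokens matter -/
theorem te_congr {k n R : ℕ} {a a' : ℕ → Vtx} {F : Set Edg} (haa : ∀ i < k, a i = a' i)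
    (h : Te k n R a F) : Te k n R a' F := by
  obtain ⟨h1, h2, h3⟩ := h
  exact ⟨fun i hi => by rw [← haa i hi]; exact h1 i hi,
    fun i hi => by rw [← haa i hi]; exact h2 i hi,
    fun i j hi hj hij => by rw [← haa i hi, ← haa j hj]; exact h3 i j hi hj hij⟩

theorem te_rot (hR : S_ROE) (k n R : ℕ) (q : ℕ) : ∀ a : ℕ → Vtx,
    Pr (fun _ => (1 / 2 : ℝ)) (boxE R) (fun F => Te k n R a (↑F : Set Edg)) ≤
      Pr (fun _ => (1 / 2 : ℝ)) (boxE R)
        (fun F => Te k n R (fun i => rotV^[q] (a i)) (↑F : Set Edg)) := by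
  induction q with
  | zero => exact fun a => le_rfl
  | succ q ih =>
    intro a
    refine (hR k n R a).trans ?_
    have h := ih (fun i => rotV (a i))
    simpa only [Function.iterate_succ, Function.comp] using h

theorem okh : Ok (fun _ : Edg => (1 / 2 : ℝ)) := fun _ => ⟨by norm_num, by norm_num⟩

end TANE

open TANE

/-- all the tokens -/
theorem t_ALE : S_MOE → S_ORD → S_ROE → S_TOE → S_ALE := by
  classical
  intro hM hO hR hT k d hk hd
  obtain ⟨n, hn⟩ : ∃ n : ℕ, n = max (2 * d) (100 * (k + 2) ^ 2) := ⟨_, rfl⟩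
  have hn1 : 2 * d ≤ n := hn ▸ le_max_left _ _
  have hn2 : 100 * (k + 2) ^ 2 ≤ n := hn ▸ le_max_right _ _
  have hn3 : 100 * (k - 1 + 2) ^ 2 ≤ n := by
    refine le_trans ?_ hn2
    have : k - 1 + 2 ≤ k + 2 := by omega
    exact Nat.mul_le_mul_left _ (Nat.pow_le_pow_left this 2)
  obtain ⟨C, hC, hCC⟩ := hM k n hk
  obtain ⟨N, hN⟩ : ∃ N : Finset Vtx, ∀ v : Vtx, nd v = n → v ∈ N := by
    refine ⟨Finset.Icc (-(n : ℤ)) n ×ˢ Finset.Icc (-(n : ℤ)) n, ?_⟩
    intro v hv
    unfold nd at hv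
    have h1 := abs_nonneg v.1
    have h2 := abs_nonneg v.2
    rw [Finset.mem_product, Finset.mem_Icc, Finset.mem_Icc, ← abs_le, ← abs_le]
    omega
  obtain ⟨Θ, hΘ⟩ : ∃ Θ : Finset (Fin k → Vtx), Θ = Fintype.piFinset (fun _ => N) := ⟨_, rfl⟩
  obtain ⟨ext, hext⟩ : ∃ ext : (Fin k → Vtx) → ℕ → Vtx,
      ∀ (t : Fin k → Vtx) (i : ℕ) (h : i < k), ext t i = t ⟨i, h⟩ :=
    ⟨fun t i => if h : i < k then t ⟨i, h⟩ else 0, fun t i h => dif_pos h⟩
  refine ⟨(Θ.card : ℝ) * C + 1, by positivity, n + 1, ?_⟩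
  intro R hRn
  have hnR : n < R := hRn
  have hsp : 0 ≤ sP k R := by
    unfold sP
    exact Pr_nonneg okh _ _
  have one : ∀ a : ℕ → Vtx,
      Pr (fun _ => (1 / 2 : ℝ)) (boxE R) (fun F => Te k n R a (↑F : Set Edg)) ≤
        C * sP k R := by
    intro a
    by_cases hex : ∃ F : Set Edg, Te k n R a F
    · obtain ⟨F0, hF0⟩ := hex
      obtain ⟨b, q, X, hbk, hb, hbi, hNr⟩ := hO (k - 1) n a (by omega) hn3
        (fun i hi => hF0.1 i (by omega))
        (fun i j hi hj => te_inj hF0 i j (by omega) (by omega))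
      have hb' : ∀ i < k, b i < k := by
        intro i hi
        rcases Nat.lt_or_ge i (k - 1) with h | h
        · have := hb i h
          omega
        · have h' : i = k - 1 := by omega
          rw [h', hbk]
          omega
      have hbi' : ∀ i j, i < k → j < k → b i = b j → i = j := by
        intro i j hi hj hij
        rcases Nat.lt_or_ge i (k - 1) with h | h
        · rcases Nat.lt_or_ge j (k - 1) with h' | h'
          · exact hbi i j h h' hij
          · have h2 : j = k - 1 := by omega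
            have h3 := hb i h
            rw [hij, h2, hbk] at h3
            omega
        · have h1 : i = k - 1 := by omega
          rcases Nat.lt_or_ge j (k - 1) with h' | h'
          · have h3 := hb j h'
            rw [← hij, h1, hbk] at h3
            omega
          · omega
      refine le_trans ?_ (hCC R X _ hnR hNr)
      refine le_trans ?_ (te_rot hR k n R q (fun i => a (b i)))
      exact Pr_mono okh (fun F _ h => te_perm hb' hbi' h)
    · have h0 : Pr (fun _ => (1 / 2 : ℝ)) (boxE R) (fun F => Te k n R a (↑F : Set Edg)) ≤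
          Pr (fun _ => (1 / 2 : ℝ)) (boxE R) (fun _ => False) :=
        Pr_mono okh (fun F _ h => hex ⟨_, h⟩)
      have h1 : Pr (fun _ => (1 / 2 : ℝ)) (boxE R) (fun _ => False) = 0 := by
        rw [pr_half]
        simp
      rw [h1] at h0
      exact h0.trans (mul_nonneg hC.le hsp)
  have hun : Pr (fun _ => (1 / 2 : ℝ)) (boxE R) (fun F => KArm k d R (↑F : Set Edg)) ≤
      Pr (fun _ => (1 / 2 : ℝ)) (boxE R)
        (fun F => ∃ t ∈ Θ, Te k n R (ext t) (↑F : Set Edg)) := by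
    refine Pr_mono okh (fun F _ h => ?_)
    obtain ⟨a, ha⟩ := hT k d n R (↑F : Set Edg) hn1 hnR h
    refine ⟨fun i => a i, ?_, ?_⟩
    · rw [hΘ, Fintype.mem_piFinset]
      exact fun i => hN _ (ha.1 i i.2)
    · refine te_congr ?_ ha
      intro i hi
      rw [hext _ i hi]
  refine hun.trans ((Pr_exists_le okh _ Θ _).trans ?_)
  refine (Finset.sum_le_sum (fun t _ => one (ext t))).trans ?_
  rw [Finset.sum_const, nsmul_eq_mul]
  nlinarith

/-- **upper bound for `2 k` arms in annuli** -/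
theorem t_ANE : S_ALE → Pool.Agent.H160R2.MU.S_UB → S_ANE := by
  intro hA hH k d hk hd
  obtain ⟨C1, hC1, R0, h1⟩ := hA k d hk hd
  obtain ⟨C2, hC2, h2⟩ := hH k hk
  obtain ⟨s, hs⟩ : ∃ s : ℝ, s = (4 * (k : ℝ) ^ 2 - 1) / 12 := ⟨_, rfl⟩
  have hk2 : (2 : ℝ) ≤ k := by exact_mod_cast hk
  have hs0 : 0 ≤ s := by
    rw [hs]
    apply div_nonneg _ (by norm_num)
    nlinarith
  refine ⟨C1 * C2 + (((max R0 k : ℕ) : ℝ) + 1) ^ s, by positivity, ?_⟩
  intro R hR
  have hR1 : (1 : ℝ) ≤ R := by exact_mod_cast hR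
  have hR0 : (0 : ℝ) < R := by linarith
  rw [← hs]
  have hpos : 0 < (R : ℝ) ^ (-s) := Real.rpow_pos_of_pos hR0 _
  by_cases h : max R0 k ≤ R
  · have h3 := h2 R ((le_max_right _ _).trans h)
    rw [← hs] at h3
    calc _ ≤ C1 * sP k R := h1 R ((le_max_left _ _).trans h)
      _ ≤ C1 * (C2 * (R : ℝ) ^ (-s)) := mul_le_mul_of_nonneg_left h3 hC1.le
      _ ≤ (C1 * C2 + (((max R0 k : ℕ) : ℝ) + 1) ^ s) * (R : ℝ) ^ (-s) := by
        have : 0 ≤ (((max R0 k : ℕ) : ℝ) + 1) ^ s * (R : ℝ) ^ (-s) := by positivity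
        linarith
  · have h4 : (R : ℝ) ≤ ((max R0 k : ℕ) : ℝ) + 1 := by
      have h' : R ≤ max R0 k := by omega
      have : (R : ℝ) ≤ ((max R0 k : ℕ) : ℝ) := by exact_mod_cast h'
      linarith
    have h5 : (1 : ℝ) ≤ (((max R0 k : ℕ) : ℝ) + 1) ^ s * (R : ℝ) ^ (-s) := by
      rw [Real.rpow_neg hR0.le, ← div_eq_mul_inv, le_div_iff₀ (Real.rpow_pos_of_pos hR0 _), one_mul]
      exact Real.rpow_le_rpow hR0.le h4 hs0
    refine (Pr_le_one okh _ _).trans (h5.trans ?_)
    have : 0 ≤ C1 * C2 * (R : ℝ) ^ (-s) := by positivity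
    linarith

end Pool.Agent.W658.KE
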