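import Pool.Agent.W658.KE.Stm
import Pool.Agent.W658.KT.T_FIN

set_option autoImplicit false

namespace Pool.Agent.W658.KE.FIEh

open H974 H906.Cyl
open Pool.Agent.H160R2.ML (nm KArm annE)
open Pool.Agent.H160R2.MU (CL Cb sv SE sP)
open Pool.Agent.W801.OU (bxz)
open Pool.Agent.W658.KT (nd Dd An Rn)
open Pool.Agent.W658.KT.FINh (out_edge rn_ge nm_le_nd)
open Pool.Agent.W658.KE

/-- the modified configuration -/
def Gm (k n : ℕ) (Q : ℕ → Set (Vtx × Bool)) (F : Set Edg) : Set Edg :=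
  {e | ∃ i < k, (src e, sd e) ∈ Q i ∧ (tgt e, sd e) ∈ Q i} ∪ (F \ Dd n)

/-- the cluster number `i` -/
def KK (n R : ℕ) (a : ℕ → Vtx) (Q : ℕ → Set (Vtx × Bool)) (F : Set Edg) (i : ℕ) :
    Set (Vtx × Bool) := {z | z ∈ Q i ∨ Rn n R F (a i) z.1}

section
variable {k n R : ℕ} {a : ℕ → Vtx} {Q : ℕ → Set (Vtx × Bool)} {F : Set Edg}

theorem q_K (hP : Pte k n a Q) (hT : Te k n R a F) {i j : ℕ} (hi : i < k) (hj : j < k)
    {z : Vtx × Bool} (hz : z ∈ Q j) (h : z ∈ KK n R a Q F i) : i = j := by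
  by_contra hij
  rcases h with h | h
  · exact hP.dj i j hi hj hij z h hz
  · have h1 : (n : ℤ) ≤ nd z.1 := rn_ge (by rw [hT.1 i hi]) h
    have h2 := hP.bd j hj z hz
    have h3 : z.1 = a j := h2.2 (le_antisymm h2.1 h1)
    rw [h3] at h
    exact hT.2.2 i j hi hj hij h

theorem K_edge (hP : Pte k n a Q) (hT : Te k n R a F) {i : ℕ} (hi : i < k) {e : Edg}
    (he : e ∈ Gm k n Q F) (h1 : nm (src e) ≤ R) (h2 : nm (tgt e) ≤ R) :
    (src e, sd e) ∈ KK n R a Q F i ↔ (tgt e, sd e) ∈ KK n R a Q F i := by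
  rcases he with ⟨j, hj, h3, h4⟩ | he
  · constructor
    · intro h
      have := q_K hP hT hi hj h3 h
      rw [this]
      exact Or.inl h4
    · intro h
      have := q_K hP hT hi hj h4 h
      rw [this]
      exact Or.inl h3
  · have ho := out_edge he.2
    have hadj : Adj (F ∩ An n R) (src e) (tgt e) := ⟨e, ⟨he.1, ⟨h1, h2⟩, he.2⟩, Or.inl ⟨rfl, rfl⟩⟩
    constructor
    · rintro (h | h)
      · have h5 := hP.bd i hi _ h
        have h6 : src e = a i := h5.2 (le_antisymm h5.1 ho.1)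
        right
        show Rn n R F (a i) (tgt e)
        rw [← h6]
        exact Relation.ReflTransGen.single hadj
      · right
        exact Relation.ReflTransGen.tail h hadj
    · rintro (h | h)
      · have h5 := hP.bd i hi _ h
        have h6 : tgt e = a i := h5.2 (le_antisymm h5.1 ho.2)
        right
        show Rn n R F (a i) (src e)
        rw [← h6]
        exact Relation.ReflTransGen.single hadj.symm
      · right
        exact Relation.ReflTransGen.tail h hadj.symm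

theorem K_link (hP : Pte k n a Q) (hT : Te k n R a F) {i : ℕ} (hi : i < k) {x y : Vtx × Bool}
    (h : CL k R (Gm k n Q F) x y) : x ∈ KK n R a Q F i ↔ y ∈ KK n R a Q F i := by
  cases h with
  | edge e he h1 h2 => exact K_edge hP hT hi he h1 h2
  | idn v h1 h2 =>
    have hc := hP.cp i hi v h2
    constructor
    · rintro (h | h)
      · exact Or.inl (hc.mp h)
      · exact Or.inr h
    · rintro (h | h)
      · exact Or.inl (hc.mpr h)
      · exact Or.inr h

theorem K_conn (hP : Pte k n a Q) (hT : Te k n R a F) {i : ℕ} (hi : i < k) {x y : Vtx × Bool}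
    (h : Cb k R (Gm k n Q F) x y) : x ∈ KK n R a Q F i ↔ y ∈ KK n R a Q F i := by
  unfold Cb at h
  induction h with
  | rel _ _ h => exact K_link hP hT hi h
  | refl _ => exact Iff.rfl
  | symm _ _ _ ih => exact ih.symm
  | trans _ _ _ _ _ ih1 ih2 => exact ih1.trans ih2

/-- vertices outside the rotated box are not on the slit -/
theorem not_slt (hP : Pte k n a Q) (hT : Te k n R a F) {v : Vtx} (hv : (n : ℤ) ≤ nd v) :
    ¬ Slt k v := by
  rintro ⟨h1, h2, h3⟩
  obtain ⟨x, y⟩ := v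
  simp only at h1 h2 h3
  subst h1
  obtain ⟨m, rfl⟩ : ∃ m : ℕ, x = m := ⟨x.toNat, by omega⟩
  have hm0 : 0 < m := by omega
  have hmk : 2 * m < k := by omega
  have t1 := hP.tip (k - 1 - m) (by omega)
  have e1 : sv k (2 * (k - 1 - (k - 1 - m))) = (((m : ℤ), (m : ℤ)), false) := by
    unfold sv
    rw [if_pos (by omega)]
    have : 2 * (k - 1 - (k - 1 - m)) / 2 = m := by omega
    rw [this]
  rw [e1] at t1
  have t2 := hP.tip (m - 1) (by omega)
  have e2 : sv k (2 * (k - 1 - (m - 1))) = (((m : ℤ), (m : ℤ)), true) := by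
    unfold sv
    rw [if_neg (by omega)]
    have : (2 * k - 2 * (k - 1 - (m - 1))) / 2 = m := by omega
    rw [this]
  rw [e2] at t2
  have b1 := hP.bd (k - 1 - m) (by omega) _ t1
  have b2 := hP.bd (m - 1) (by omega) _ t2
  have c1 := b1.2 (le_antisymm b1.1 hv)
  have c2 := b2.2 (le_antisymm b2.1 hv)
  apply hT.2.2 (k - 1 - m) (m - 1) (by omega) (by omega) (by omega)
  rw [← c1, ← c2]
  exact Relation.ReflTransGen.refl

theorem q_box (hP : Pte k n a Q) (hnR : n < R) {i : ℕ} (hi : i < k) {z : Vtx × Bool}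
    (hz : z ∈ Q i) : nm z.1 ≤ (R : ℤ) := by
  have h1 := (hP.bd i hi z hz).1
  have h2 := nm_le_nd z.1
  have h3 : (n : ℤ) < R := by exact_mod_cast hnR
  linarith

theorem conn_Q (hP : Pte k n a Q) (hnR : n < R) {i : ℕ} (hi : i < k) {x y : Vtx × Bool}
    (h : Cq k (Q i) x y) : Cb k R (Gm k n Q F) x y := by
  unfold Cq at h
  induction h with
  | rel _ _ h =>
    cases h with
    | edge e h1 h2 =>
      have b1 : nm (src e) ≤ (R : ℤ) := q_box (z := (src e, sd e)) hP hnR hi h1
      have b2 : nm (tgt e) ≤ (R : ℤ) := q_box (z := (tgt e, sd e)) hP hnR hi h2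
      have b3 : e ∈ Gm k n Q F := Or.inl ⟨i, hi, h1, h2⟩
      have b4 : CL k R (Gm k n Q F) (src e, sd e) (tgt e, sd e) := CL.edge e b3 b1 b2
      exact Relation.EqvGen.rel _ _ b4
    | idn v h1 h2 h3 =>
      have b1 : nm v ≤ (R : ℤ) := q_box (z := (v, false)) hP hnR hi h2
      have b4 : CL k R (Gm k n Q F) (v, false) (v, true) := CL.idn v b1 h1
      exact Relation.EqvGen.rel _ _ b4
  | refl _ => exact Relation.EqvGen.refl _
  | symm _ _ _ ih => exact Relation.EqvGen.symm _ _ ih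
  | trans _ _ _ _ _ ih1 ih2 => exact Relation.EqvGen.trans _ _ _ ih1 ih2

theorem copy_conn (hP : Pte k n a Q) (hT : Te k n R a F) {v : Vtx} (hv : (n : ℤ) ≤ nd v)
    (hR : nm v ≤ (R : ℤ)) (b : Bool) : Cb k R (Gm k n Q F) (v, false) (v, b) := by
  cases b
  · exact Relation.EqvGen.refl _
  · exact Relation.EqvGen.rel _ _ (CL.idn v hR (not_slt hP hT hv))

theorem conn_out (hP : Pte k n a Q) (hT : Te k n R a F) {i : ℕ} {v : Vtx}
    (h : Rn n R F (a i) v) : Cb k R (Gm k n Q F) (a i, false) (v, false) := by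
  unfold Rn Reach at h
  induction h with
  | refl => exact Relation.EqvGen.refl _
  | tail _ hs ih =>
    obtain ⟨e, he, h1⟩ := hs
    have ho := out_edge he.2.2
    have hb := he.2.1
    have hl : Cb k R (Gm k n Q F) (src e, sd e) (tgt e, sd e) :=
      Relation.EqvGen.rel _ _ (CL.edge e (Or.inr ⟨he.1, he.2.2⟩) hb.1 hb.2)
    have hs1 := copy_conn (R := R) (F := F) hP hT ho.1 hb.1 (sd e)
    have hs2 := copy_conn (R := R) (F := F) hP hT ho.2 hb.2 (sd e)
    rcases h1 with ⟨h2, h3⟩ | ⟨h2, h3⟩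
    · rw [← h3]
      rw [← h2] at ih
      exact Relation.EqvGen.trans _ _ _ ih (Relation.EqvGen.trans _ _ _ hs1
        (Relation.EqvGen.trans _ _ _ hl (Relation.EqvGen.symm _ _ hs2)))
    · rw [← h2]
      rw [← h3] at ih
      exact Relation.EqvGen.trans _ _ _ ih (Relation.EqvGen.trans _ _ _ hs2
        (Relation.EqvGen.trans _ _ _ (Relation.EqvGen.symm _ _ hl) (Relation.EqvGen.symm _ _ hs1)))

end

end Pool.Agent.W658.KE.FIEh

namespace Pool.Agent.W658.KE

open H974 H906.Cyl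
open Pool.Agent.H160R2.ML (nm KArm annE)
open Pool.Agent.H160R2.MU (CL Cb sv SE sP)
open Pool.Agent.W801.OU (bxz)
open Pool.Agent.W658.KT (nd Dd An Rn)
open Pool.Agent.W658.KE.FIEh

theorem t_FIE : S_FIE := by
  intro k n R a Q F hk hnR hP hT
  show SE k R (Gm k n Q F)
  have htip : ∀ i : ℕ, i < 2 * k → i % 2 = 0 → sv k i ∈ Q (k - 1 - i / 2) := by
    intro i hi h0
    have h := hP.tip (k - 1 - i / 2) (by omega)
    have e : 2 * (k - 1 - (k - 1 - i / 2)) = i := by omega
    rwa [e] at h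
  constructor
  · intro i j hi hj hi0 hj0 hij h
    have h1 : sv k j ∈ KK n R a Q F (k - 1 - i / 2) :=
      (K_conn hP hT (by omega) h).mp (Or.inl (htip i hi hi0))
    have h2 := q_K hP hT (by omega) (by omega) (htip j hj hj0) h1
    omega
  · intro i hi hi0
    have hi' : k - 1 - i / 2 < k := by omega
    obtain ⟨w, hw, hr⟩ := hT.2.1 _ hi'
    refine ⟨w, false, hw, ?_⟩
    have h1 : Cb k R (Gm k n Q F) (a (k - 1 - i / 2), false) (sv k i) :=
      conn_Q hP hnR hi' (hP.con _ hi' _ (htip i hi hi0))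
    exact Relation.EqvGen.trans _ _ _ (Relation.EqvGen.symm _ _ h1) (conn_out hP hT hr)

end Pool.Agent.W658.KE
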