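import Pool.Agent.W658.KE.Stm

/-!
# Paths inside the rectangle around the slit (step `S_INE`)
-/

set_option autoImplicit false

namespace Pool.Agent.W658.KE
open H974 H906.Cyl
open Pool.Agent.H160R2.ML (nm KArm annE)
open Pool.Agent.H160R2.MU (CL Cb sv SE sP)
open Pool.Agent.W801.OU (bxz)

namespace INE

theorem sw (k : ℕ) (Q : Set (Vtx × Bool)) (v : Vtx) (hv : ¬ Slt k v) (h : ∀ b, (v, b) ∈ Q)
    (b b' : Bool) : Cq k Q (v, b) (v, b') := by
  have h1 : Cq k Q (v, false) (v, true) := Relation.EqvGen.rel _ _ (Lq.idn v hv (h _) (h _))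
  cases b <;> cases b'
  · exact Relation.EqvGen.refl _
  · exact h1
  · exact h1.symm
  · exact Relation.EqvGen.refl _

theorem he (k : ℕ) (Q : Set (Vtx × Bool)) (x y : ℤ) (s : Bool) (hs : s = decide (0 ≤ x - y))
    (h1 : ((x, y), s) ∈ Q) (h2 : ((x + 1, y), s) ∈ Q) :
    Cq k Q ((x, y), s) ((x + 1, y), s) := by
  subst hs
  exact Relation.EqvGen.rel _ _ (Lq.edge (x, y, true) h1 h2)

theorem ve (k : ℕ) (Q : Set (Vtx × Bool)) (x y : ℤ) (s : Bool) (hs : s = decide (0 ≤ x - y - 1))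
    (h1 : ((x, y), s) ∈ Q) (h2 : ((x, y + 1), s) ∈ Q) :
    Cq k Q ((x, y), s) ((x, y + 1), s) := by
  subst hs
  exact Relation.EqvGen.rel _ _ (Lq.edge (x, y, false) h1 h2)

theorem hseg (k : ℕ) (Q : Set (Vtx × Bool)) (y x1 x2 : ℤ) (hx : x1 ≤ x2)
    (hns : ∀ x, x1 ≤ x → x ≤ x2 → ¬ Slt k (x, y))
    (h : ∀ x, x1 ≤ x → x ≤ x2 → ∀ b, ((x, y), b) ∈ Q) :
    ∀ b b', Cq k Q ((x1, y), b) ((x2, y), b') := by
  obtain ⟨n, rfl⟩ := Int.le.dest hx
  induction n with
  | zero =>
    intro b b'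
    simp only [Nat.cast_zero, add_zero]
    exact sw k Q _ (hns x1 le_rfl (by omega)) (h x1 le_rfl (by omega)) b b'
  | succ n ih =>
    intro b b'
    have h1 := ih (by omega) (fun x hx1 hx2 => hns x hx1 (by push_cast; omega))
      (fun x hx1 hx2 => h x hx1 (by push_cast; omega)) b (decide (0 ≤ x1 + n - y))
    have h2 := he k Q (x1 + n) y _ rfl (h (x1 + n) (by omega) (by push_cast; omega) _)
      (h (x1 + n + 1) (by omega) (by push_cast; omega) _)
    have h3 := sw k Q (x1 + n + 1, y) (hns (x1 + n + 1) (by omega) (by push_cast; omega))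
      (h (x1 + n + 1) (by omega) (by push_cast; omega)) (decide (0 ≤ x1 + n - y)) b'
    have e : x1 + ((n + 1 : ℕ) : ℤ) = x1 + n + 1 := by push_cast; ring
    rw [e]
    exact (h1.trans _ _ _ h2).trans _ _ _ h3

theorem vseg (k : ℕ) (Q : Set (Vtx × Bool)) (x y1 y2 : ℤ) (hy : y1 ≤ y2)
    (hns : ∀ y, y1 ≤ y → y ≤ y2 → ¬ Slt k (x, y))
    (h : ∀ y, y1 ≤ y → y ≤ y2 → ∀ b, ((x, y), b) ∈ Q) :
    ∀ b b', Cq k Q ((x, y1), b) ((x, y2), b') := by
  obtain ⟨n, rfl⟩ := Int.le.dest hy
  induction n with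
  | zero =>
    intro b b'
    simp only [Nat.cast_zero, add_zero]
    exact sw k Q _ (hns y1 le_rfl (by omega)) (h y1 le_rfl (by omega)) b b'
  | succ n ih =>
    intro b b'
    have h1 := ih (by omega) (fun x hx1 hx2 => hns x hx1 (by push_cast; omega))
      (fun x hx1 hx2 => h x hx1 (by push_cast; omega)) b (decide (0 ≤ x - (y1 + n) - 1))
    have h2 := ve k Q x (y1 + n) _ rfl (h (y1 + n) (by omega) (by push_cast; omega) _)
      (h (y1 + n + 1) (by omega) (by push_cast; omega) _)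
    have h3 := sw k Q (x, y1 + n + 1) (hns (y1 + n + 1) (by omega) (by push_cast; omega))
      (h (y1 + n + 1) (by omega) (by push_cast; omega)) (decide (0 ≤ x - (y1 + n) - 1)) b'
    have e : y1 + ((n + 1 : ℕ) : ℤ) = y1 + n + 1 := by push_cast; ring
    rw [e]
    exact (h1.trans _ _ _ h2).trans _ _ _ h3

/-- the column of the path -/
def cc (k : ℕ) (y0 : ℤ) (i : ℕ) : ℤ := if 1 ≤ y0 then 2 * k + 2 - i else 2 * k + 2 + i

/-- the left end of the row -/
def ss (k i : ℕ) : ℤ := if 2 * (i + 1) < k then i + 1 else k - 1 - i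

/-- the paths -/
def PI (k : ℕ) (X y0 : ℤ) (i : ℕ) (x y : ℤ) : Prop :=
  (cc k y0 i ≤ x ∧ x ≤ X ∧ y = y0 + i) ∨
    (x = cc k y0 i ∧ ((y0 + i ≤ y ∧ y ≤ i + 1) ∨ (i + 1 ≤ y ∧ y ≤ y0 + i))) ∨
    (ss k i ≤ x ∧ x ≤ cc k y0 i ∧ y = i + 1) ∨
    (k ≤ 2 * (i + 1) ∧ x = k - 1 - i ∧ (k : ℤ) - 1 - i ≤ y ∧ y ≤ i + 1)

/-- the copies of the vertices -/
def QI (k : ℕ) (X y0 : ℤ) (i : ℕ) : Set (Vtx × Bool) :=
  {z | PI k X y0 i z.1.1 z.1.2 ∧ (Slt k z.1 → z.2 = decide (2 * (i + 1) < k))}

theorem mem_QI (k : ℕ) (X y0 : ℤ) (i : ℕ) (x y : ℤ) (b : Bool) : ((x, y), b) ∈ QI k X y0 i ↔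
    PI k X y0 i x y ∧ (Slt k (x, y) → b = decide (2 * (i + 1) < k)) := Iff.rfl

theorem slt_iff (k : ℕ) (x y : ℤ) : Slt k (x, y) ↔ x = y ∧ 0 < 2 * x ∧ 2 * x < k := Iff.rfl

end INE

open INE in
theorem t_INE : S_INE := by
  intro k X Y y0 hk hX hY hkY
  have hc : ∀ i : ℕ, i < k → 2 * (k : ℤ) + 2 - i ≤ cc k y0 i ∧ cc k y0 i ≤ 2 * k + 2 + i := by
    intro i hi
    unfold cc
    split_ifs <;> constructor <;> omega
  have hs : ∀ i : ℕ, i < k → 0 ≤ ss k i ∧ ss k i ≤ k := by
    intro i hi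
    unfold ss
    split_ifs <;> constructor <;> omega
  refine ⟨QI k X y0, ?_, ?_, ?_, ?_, ?_, ?_⟩
  · rintro i hi ⟨⟨x, y⟩, b⟩ hv
    rw [mem_QI] at hv
    have hv := hv.1
    unfold PI at hv
    have h1 := hc i hi
    have h2 := hs i hi
    simp only
    have h3 := abs_le.mp (show |y0| ≤ Y - k by omega)
    rw [abs_le, abs_le]
    rcases hv with hv | hv | hv | hv
    · refine ⟨⟨?_, ?_⟩, ?_, ?_⟩ <;> omega
    · refine ⟨⟨?_, ?_⟩, ?_, ?_⟩ <;> omega
    · refine ⟨⟨?_, ?_⟩, ?_, ?_⟩ <;> omega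
    · refine ⟨⟨?_, ?_⟩, ?_, ?_⟩ <;> omega
  · rintro i hi ⟨x, y⟩ hv
    rw [mem_QI, mem_QI]
    constructor
    · exact fun h => ⟨h.1, fun h' => absurd h' hv⟩
    · exact fun h => ⟨h.1, fun h' => absurd h' hv⟩
  · rintro i j hij hj ⟨⟨x, y⟩, b⟩ hv hw
    rw [mem_QI] at hv hw
    have key : Slt k (x, y) ∧ 2 * (i + 1) < k ∧ ¬ 2 * (j + 1) < k := by
      obtain ⟨hv, -⟩ := hv
      obtain ⟨hw, -⟩ := hw
      rw [slt_iff]
      unfold PI cc ss at hv hw
      by_cases hy : 1 ≤ y0
      · rw [if_pos hy] at hv hw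
        by_cases h1 : 2 * (i + 1) < k
        · rw [if_pos h1] at hv
          by_cases h2 : 2 * (j + 1) < k
          · rw [if_pos h2] at hw
            exfalso; omega
          · rw [if_neg h2] at hw
            omega
        · rw [if_neg h1] at hv
          by_cases h2 : 2 * (j + 1) < k
          · exfalso; omega
          · rw [if_neg h2] at hw
            exfalso; omega
      · rw [if_neg hy] at hv hw
        by_cases h1 : 2 * (i + 1) < k
        · rw [if_pos h1] at hv
          by_cases h2 : 2 * (j + 1) < k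
          · rw [if_pos h2] at hw
            exfalso; omega
          · rw [if_neg h2] at hw
            omega
        · rw [if_neg h1] at hv
          by_cases h2 : 2 * (j + 1) < k
          · exfalso; omega
          · rw [if_neg h2] at hw
            exfalso; omega
    obtain ⟨h1, h2, h3⟩ := key
    have e1 := hv.2 h1
    have e2 := hw.2 h1
    rw [decide_eq_true h2] at e1
    rw [decide_eq_false h3] at e2
    rw [e1] at e2
    exact absurd e2 (by decide)
  · intro i hi
    rw [mem_QI]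
    have h1 := hc i hi
    refine ⟨Or.inl ⟨?_, le_rfl, rfl⟩, ?_⟩
    · omega
    · intro h
      rw [slt_iff] at h
      exfalso; omega
  · intro i hi
    have h1 := hc i hi
    by_cases h : 2 * (i + 1) < k
    · have e : sv k (2 * (k - 1 - i)) = ((((i : ℤ) + 1, (i : ℤ) + 1) : Vtx), true) := by
        unfold sv
        rw [if_neg (by omega)]
        have : (((2 * k - 2 * (k - 1 - i)) / 2 : ℕ) : ℤ) = (i : ℤ) + 1 := by omega
        rw [this]
      rw [e, mem_QI]
      refine ⟨Or.inr (Or.inr (Or.inl ⟨?_, ?_, rfl⟩)), fun _ => (decide_eq_true h).symm⟩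
      · unfold ss
        rw [if_pos h]
      · omega
    · have e : sv k (2 * (k - 1 - i)) = ((((k : ℤ) - 1 - i, (k : ℤ) - 1 - i) : Vtx), false) := by
        unfold sv
        rw [if_pos (by omega)]
        have : (((2 * (k - 1 - i)) / 2 : ℕ) : ℤ) = (k : ℤ) - 1 - i := by omega
        rw [this]
      rw [e, mem_QI]
      refine ⟨Or.inr (Or.inr (Or.inr ⟨by omega, rfl, le_rfl, ?_⟩)), fun _ => (decide_eq_false h).symm⟩
      omega
  · rintro i hi ⟨⟨x, y⟩, b⟩ hv
    have h1 := hc i hi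
    have h2 := hs i hi
    -- membership of the vertices away from the slit
    have hm : ∀ x y, ¬ Slt k (x, y) → PI k X y0 i x y → ∀ b, ((x, y), b) ∈ QI k X y0 i :=
      fun x y hn hp b => ⟨hp, fun h => absurd h hn⟩
    have n1 : ∀ x y, cc k y0 i ≤ x → ¬ Slt k (x, y) := by
      intro x y hx h
      rw [slt_iff] at h
      omega
    have r1 : ∀ x, cc k y0 i ≤ x → x ≤ X → ∀ b,
        Cq k (QI k X y0 i) ((X, y0 + i), false) ((x, y0 + i), b) := by
      intro x hx1 hx2 b
      refine (hseg k _ _ _ _ hx2 (fun z hz1 hz2 => n1 _ _ (by omega)) (fun z hz1 hz2 =>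
        hm _ _ (n1 _ _ (by omega)) ?_) b false).symm
      exact Or.inl ⟨by omega, hz2, rfl⟩
    have r2 : ∀ y, ((y0 + i ≤ y ∧ y ≤ i + 1) ∨ (i + 1 ≤ y ∧ y ≤ y0 + i)) → ∀ b,
        Cq k (QI k X y0 i) ((X, y0 + i), false) ((cc k y0 i, y), b) := by
      intro y hy b
      refine (r1 (cc k y0 i) le_rfl (by omega) false).trans _ _ _ ?_
      rcases hy with hy | hy
      · refine vseg k _ _ _ _ hy.1 (fun z hz1 hz2 => n1 _ _ le_rfl) (fun z hz1 hz2 =>
          hm _ _ (n1 _ _ le_rfl) ?_) false b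
        right; left
        refine ⟨rfl, ?_⟩
        omega
      · refine (vseg k _ _ _ _ hy.2 (fun z hz1 hz2 => n1 _ _ le_rfl) (fun z hz1 hz2 =>
          hm _ _ (n1 _ _ le_rfl) ?_) b false).symm
        right; left
        refine ⟨rfl, ?_⟩
        omega
    have r3 : ∀ x, ss k i ≤ x → x ≤ cc k y0 i → (2 * (i + 1) < k → (i : ℤ) + 2 ≤ x) → ∀ b,
        Cq k (QI k X y0 i) ((X, y0 + i), false) ((x, (i : ℤ) + 1), b) := by
      intro x hx1 hx2 hx3 b
      refine (r2 ((i : ℤ) + 1) (by omega) false).trans _ _ _ ?_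
      have n3 : ∀ z, x ≤ z → ¬ Slt k (z, (i : ℤ) + 1) := by
        intro z hz h
        rw [slt_iff] at h
        omega
      refine (hseg k _ _ _ _ hx2 (fun z hz1 hz2 => n3 z hz1) (fun z hz1 hz2 =>
        hm _ _ (n3 z hz1) ?_) b false).symm
      right; right; left
      exact ⟨by omega, hz2, rfl⟩
    rw [mem_QI] at hv
    obtain ⟨hv, hvb⟩ := hv
    by_cases hi2 : 2 * (i + 1) < k
    · have hsi : ss k i = (i : ℤ) + 1 := by
        unfold ss
        rw [if_pos hi2]
      rcases hv with hv | hv | hv | hv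
      · obtain ⟨ha, hb, rfl⟩ := hv
        exact r1 x ha hb b
      · obtain ⟨rfl, hb⟩ := hv
        exact r2 y hb b
      · obtain ⟨ha, hb, rfl⟩ := hv
        by_cases hx : x = (i : ℤ) + 1
        · subst hx
          have hslt : Slt k ((i : ℤ) + 1, (i : ℤ) + 1) := by
            rw [slt_iff]
            refine ⟨rfl, ?_, ?_⟩ <;> omega
          have hbt := hvb hslt
          rw [decide_eq_true hi2] at hbt
          subst hbt
          refine (r3 ((i : ℤ) + 1 + 1) (by omega) (by omega) (fun _ => by omega) true).trans _ _ _ ?_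
          refine (he k _ ((i : ℤ) + 1) ((i : ℤ) + 1) true (by simp) ?_ ?_).symm
          · rw [mem_QI]
            exact ⟨Or.inr (Or.inr (Or.inl ⟨ha, hb, rfl⟩)), fun _ => (decide_eq_true hi2).symm⟩
          · refine hm _ _ ?_ (Or.inr (Or.inr (Or.inl ⟨by omega, by omega, rfl⟩))) true
            rw [slt_iff]
            omega
        · exact r3 x ha hb (fun _ => by omega) b
      · exfalso; omega
    · have hsi : ss k i = (k : ℤ) - 1 - i := by
        unfold ss
        rw [if_neg hi2]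
      have r4 : ∀ y, (k : ℤ) - 1 - i < y → y ≤ i + 1 → ∀ b,
          Cq k (QI k X y0 i) ((X, y0 + i), false) (((k : ℤ) - 1 - i, y), b) := by
        intro y hy1 hy2 b
        refine (r3 ((k : ℤ) - 1 - i) (by omega) (by omega) (fun h => absurd h hi2) false).trans _ _ _ ?_
        have n4 : ∀ z, y ≤ z → ¬ Slt k ((k : ℤ) - 1 - i, z) := by
          intro z hz h
          rw [slt_iff] at h
          omega
        refine (vseg k _ _ _ _ hy2 (fun z hz1 hz2 => n4 z hz1) (fun z hz1 hz2 =>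
          hm _ _ (n4 z hz1) ?_) b false).symm
        right; right; right
        exact ⟨by omega, rfl, by omega, hz2⟩
      rcases hv with hv | hv | hv | hv
      · obtain ⟨ha, hb, rfl⟩ := hv
        exact r1 x ha hb b
      · obtain ⟨rfl, hb⟩ := hv
        exact r2 y hb b
      · obtain ⟨ha, hb, rfl⟩ := hv
        exact r3 x ha hb (fun h => absurd h hi2) b
      · obtain ⟨ha, rfl, hb, hc'⟩ := hv
        by_cases hy : (k : ℤ) - 1 - i < y
        · exact r4 y hy hc' b
        · have hye : y = (k : ℤ) - 1 - i := by omega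
          subst hye
          by_cases hm1 : (k : ℤ) - 1 - i = i + 1
          · have := r3 ((k : ℤ) - 1 - i) (by omega) (by omega) (fun h => absurd h hi2) b
            rw [← hm1] at this
            exact this
          · have hb' : ∀ b, ¬ Slt k ((k : ℤ) - 1 - i, (k : ℤ) - 1 - i) →
                Cq k (QI k X y0 i) (((k : ℤ) - 1 - i, (k : ℤ) - 1 - i), false)
                  (((k : ℤ) - 1 - i, (k : ℤ) - 1 - i), b) := fun b hn =>
              sw k _ _ hn (hm _ _ hn (Or.inr (Or.inr (Or.inr ⟨ha, rfl, le_rfl, hc'⟩)))) false b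
            have h0 : Cq k (QI k X y0 i) ((X, y0 + i), false)
                (((k : ℤ) - 1 - i, (k : ℤ) - 1 - i), false) := by
              refine (r4 ((k : ℤ) - 1 - i + 1) (by omega) (by omega) false).trans _ _ _ ?_
              refine (ve k _ ((k : ℤ) - 1 - i) ((k : ℤ) - 1 - i) false (by simp) ?_ ?_).symm
              · rw [mem_QI]
                exact ⟨Or.inr (Or.inr (Or.inr ⟨ha, rfl, le_rfl, hc'⟩)),
                  fun _ => (decide_eq_false hi2).symm⟩
              · refine hm _ _ ?_ (Or.inr (Or.inr (Or.inr ⟨ha, rfl, by omega, by omega⟩))) false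
                rw [slt_iff]
                omega
            by_cases hsl : Slt k ((k : ℤ) - 1 - i, (k : ℤ) - 1 - i)
            · have hbf := hvb hsl
              rw [decide_eq_false hi2] at hbf
              subst hbf
              exact h0
            · exact h0.trans _ _ _ (hb' b hsl)

end Pool.Agent.W658.KE
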