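import Pool.Agent.W658.KE.Stm

set_option autoImplicit false

/-!
# The lower bound for larger inner radius
-/

namespace Pool.Agent.W658.KE
open H974 H906.Cyl
open Pool.Agent.H160R2.ML (nm KArm annE)

namespace TLOE

theorem edge_cases (e : Edg) : (src e = (e.1, e.2.1)) ∧
    (tgt e = (e.1 + 1, e.2.1) ∨ tgt e = (e.1, e.2.1 + 1)) := by
  obtain ⟨x, y, b⟩ := e
  cases b
  · exact ⟨rfl, Or.inr rfl⟩
  · exact ⟨rfl, Or.inl rfl⟩

theorem abs_step (x : ℤ) : |x + 1| ≤ |x| + 1 ∧ |x| ≤ |x + 1| + 1 := by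
  constructor
  · calc |x + 1| ≤ |x| + |1| := abs_add_le _ _
      _ = |x| + 1 := by norm_num
  · calc |x| = |(x + 1) + (-1)| := by ring_nf
      _ ≤ |x + 1| + |(-1 : ℤ)| := abs_add_le _ _
      _ = |x + 1| + 1 := by norm_num

theorem nm_step (e : Edg) : nm (tgt e) ≤ nm (src e) + 1 ∧ nm (src e) ≤ nm (tgt e) + 1 := by
  obtain ⟨h1, h2⟩ := edge_cases e
  rw [h1]
  rcases h2 with h | h
  · rw [h]
    unfold nm
    have := abs_step e.1
    constructor <;> simp only <;> omega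
  · rw [h]
    unfold nm
    have := abs_step e.2.1
    constructor <;> simp only <;> omega

theorem adj_nm {G : Set Edg} {u v : Vtx} (h : H974.Adj G u v) : nm v ≤ nm u + 1 := by
  obtain ⟨e, _, ⟨rfl, rfl⟩ | ⟨rfl, rfl⟩⟩ := h
  · exact (nm_step e).1
  · exact (nm_step e).2

/-- the edges outside the box of radius `d` -/
def Oe (d : ℤ) : Set Edg := {e | d ≤ nm (src e) ∧ d ≤ nm (tgt e)}

/-- the last vertex on the box of radius `d` -/
theorem last_exit {G : Set Edg} {d : ℤ} {u w : Vtx} (h : Reach G u w) (hw : d ≤ nm w) :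
    (d < nm u ∧ Reach (G ∩ Oe d) u w) ∨
      ∃ u₁, nm u₁ = d ∧ Reach G u u₁ ∧ Reach (G ∩ Oe d) u₁ w := by
  induction h using Relation.ReflTransGen.head_induction_on with
  | refl =>
    rcases hw.lt_or_eq with h | h
    · exact Or.inl ⟨h, Reach.refl _ _⟩
    · exact Or.inr ⟨w, h.symm, Reach.refl _ _, Reach.refl _ _⟩
  | head hs ht ih =>
    rename_i a c
    rcases ih with ⟨h1, h2⟩ | ⟨u₁, h1, h2, h3⟩
    · have hn := adj_nm hs.symm
      have hn' := adj_nm hs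
      have hadj : H974.Adj (G ∩ Oe d) a c := by
        obtain ⟨e, he, hh⟩ := hs
        refine ⟨e, ⟨he, ?_⟩, hh⟩
        rcases hh with ⟨h3, h4⟩ | ⟨h4, h3⟩
        · refine ⟨?_, ?_⟩
          · rw [h3]; omega
          · rw [h4]; omega
        · refine ⟨?_, ?_⟩
          · rw [h4]; omega
          · rw [h3]; omega
      by_cases hu : d < nm a
      · exact Or.inl ⟨hu, Relation.ReflTransGen.head hadj h2⟩
      · refine Or.inr ⟨a, by omega, Reach.refl _ _, Relation.ReflTransGen.head hadj h2⟩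
    · exact Or.inr ⟨u₁, h1, Relation.ReflTransGen.head hs h2, h3⟩

theorem reach_mono {G G' : Set Edg} (h : G ⊆ G') {u v : Vtx} (hr : Reach G u v) : Reach G' u v := by
  induction hr with
  | refl => exact Reach.refl _ _
  | tail _ hs ih => exact Relation.ReflTransGen.tail ih (H974.Adj.mono h hs)

theorem karm_mono {k : ℕ} {a d R : ℤ} (had : a ≤ d) (hdR : d ≤ R) {F : Set Edg}
    (h : KArm k a R F) : KArm k d R F := by
  obtain ⟨x, h1, h2⟩ := h
  have hsub : (F ∩ annE a R) ∩ Oe d ⊆ F ∩ annE d R := by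
    rintro e ⟨⟨e1, e2⟩, e3⟩
    exact ⟨e1, ⟨e3.1, e2.1.2⟩, ⟨e3.2, e2.2.2⟩⟩
  have hsub' : F ∩ annE d R ⊆ F ∩ annE a R := by
    rintro e ⟨e1, e2⟩
    exact ⟨e1, ⟨had.trans e2.1.1, e2.1.2⟩, ⟨had.trans e2.2.1, e2.2.2⟩⟩
  have hcl : ∀ i : Fin k, ∃ u : Vtx, nm u = d ∧ Reach (F ∩ annE a R) (x i) u ∧
      ∃ y, nm y = R ∧ Reach (F ∩ annE d R) u y := by
    intro i
    obtain ⟨a1, y, a2, a3⟩ := h1 i
    rcases last_exit (d := d) a3 (by rw [a2]; exact hdR) with ⟨b1, _⟩ | ⟨u, b1, b2, b3⟩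
    · rw [a1] at b1
      omega
    · exact ⟨u, b1, b2, y, a2, reach_mono hsub b3⟩
  choose u hu using hcl
  refine ⟨u, fun i => ⟨(hu i).1, (hu i).2.2⟩, fun i j hij hcon => h2 i j hij ?_⟩
  exact ((hu i).2.1.trans (reach_mono hsub' hcon)).trans (hu j).2.1.symm

end TLOE

open TLOE in
/-- **lower bound in annuli with inner radius `d ≥ k`** -/
theorem t_LOE : Pool.Agent.H160R2.ML.S_PL → S_LOE := by
  intro hPL k d hk hkd
  obtain ⟨c, hc, h⟩ := hPL k hk
  refine ⟨c, hc, fun R hR => (h R (hkd.trans hR)).trans ?_⟩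
  refine Pr_mono (fun _ => ⟨by norm_num, by norm_num⟩) ?_
  intro F _ hF
  exact karm_mono (by exact_mod_cast hkd) (by exact_mod_cast hR) hF

end Pool.Agent.W658.KE
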