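import Pool.Agent.W658.KE.Stm
import Pool.Agent.W658.KT.T_ROT

/-!
# Rotation invariance of the token events (`S_ROE`), even numbers of arms (second copy)
-/

set_option autoImplicit false

namespace Pool.Agent.W658.KE
open H974 H906.Cyl
open Pool.Agent.H160R2.ML (nm)
open Pool.Agent.W658.KT (nd Rn rotV)

namespace TROEb

open Pool.Agent.W658.KT.TROT

theorem Te_rot {k n R : ℕ} {a : ℕ → Vtx} {F : Set Edg} (h : Te k n R a F) :
    Te k n R (fun i => rotV (a i)) (rot.φ '' F) := by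
  obtain ⟨h1, h2, h3⟩ := h
  refine ⟨fun i hi => ?_, fun i hi => ?_, fun i j hi hj hij => ?_⟩
  · rw [nd_rot]; exact h1 i hi
  · obtain ⟨w, hw, h5⟩ := h2 i hi
    refine ⟨rotV w, ?_, ?_⟩
    · rw [nm_rot]; exact hw
    · exact (Rn_rot _ _ _ _ _).2 h5
  · intro h5
    exact h3 i j hi hj hij ((Rn_rot _ _ _ _ _).1 h5)

end TROEb

open TROEb Pool.Agent.W658.KT.TROT in
theorem t_ROE : S_ROE := by
  intro k n R a
  have h1 : Pr (fun _ => (1 / 2 : ℝ)) (boxE R)
      (fun F => Te k n R (fun i => rotV (a i)) (↑F : Set Edg)) =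
      Pr (fun _ => (1 / 2 : ℝ)) (boxE R)
      (fun F => Te k n R (fun i => rotV (a i)) (↑(rot.mp F) : Set Edg)) := by
    conv_lhs => rw [← box_rot R]
    exact rot.pr _ _ _
  rw [h1]
  refine Pr_mono (okq (by norm_num) (by norm_num)) ?_
  intro F hF h
  rw [LSym.coe_mp]
  exact Te_rot h

end Pool.Agent.W658.KE
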